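import Pool.Agent.H788R3.Sq.G

set_option autoImplicit false
open MeasureTheory Set Metric Complex Filter Topology

namespace Pool.Agent.H788R3.Sq

theorem L_le' {ζ : ℂ} {r : ℝ} (hr : 1 ≤ r) (h : ‖ζ‖ ≤ r) : L ζ ≤ Real.log r + G 0 := by
  have h1 : ‖ζ‖ ≤ ‖(r : ℂ)‖ := by
    rw [Complex.norm_real, Real.norm_of_nonneg (by linarith)]
    exact h
  have h2 : ‖(r : ℂ)‖ = r := by rw [Complex.norm_real, Real.norm_of_nonneg (by linarith)]
  calc L ζ ≤ L (r : ℂ) := L_mono h1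
    _ = Real.log r + G 0 := by rw [L_big (by rw [h2]; exact hr), h2]

noncomputable def mm (R : ℝ) : ℝ := 1 / (2 * (1 + Real.log R))
noncomputable def KK (R : ℝ) : ℝ := 2 * Real.log (R + 1) * R ^ 2
noncomputable def tt (R : ℝ) : ℝ := Real.exp (-(KK R / mm R))
noncomputable def AA (R : ℝ) : ℝ := KK R + mm R * G 0

noncomputable def psi (R : ℝ) (ζ : ℂ) : ℝ :=
  L ζ + (mm R * L ((ζ - (1 / R : ℝ)) / (tt R : ℝ)) + mm R * L ((ζ - (-(1 / R) : ℝ)) / (tt R : ℝ)))

variable {R : ℝ}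

theorem mm_pos (hR : 2 ≤ R) : 0 < mm R := by
  have : 0 ≤ Real.log R := Real.log_nonneg (by linarith)
  unfold mm
  positivity

theorem mm_le (hR : 2 ≤ R) : mm R ≤ 1 / 2 := by
  have : 0 ≤ Real.log R := Real.log_nonneg (by linarith)
  unfold mm
  apply one_div_le_one_div_of_le (by norm_num)
  linarith

theorem mm_log (hR : 2 ≤ R) : 2 * mm R * Real.log R ≤ 1 := by
  have : 0 ≤ Real.log R := Real.log_nonneg (by linarith)
  unfold mm
  rw [mul_one_div, div_mul_eq_mul_div, div_le_one (by positivity)]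
  linarith

theorem KK_pos (hR : 2 ≤ R) : 0 < KK R := by
  have : 0 < Real.log (R + 1) := Real.log_pos (by linarith)
  unfold KK
  positivity

theorem tt_pos (R : ℝ) : 0 < tt R := Real.exp_pos _

theorem log_tt (hR : 2 ≤ R) : mm R * Real.log (1 / tt R) = KK R := by
  have := mm_pos hR
  rw [one_div, Real.log_inv, tt, Real.log_exp]
  field_simp

theorem KK_ge (hR : 2 ≤ R) : Real.log R ≤ KK R := by
  have h1 : 0 ≤ Real.log R := Real.log_nonneg (by linarith)
  have h2 : Real.log R ≤ Real.log (R + 1) := Real.log_le_log (by linarith) (by linarith)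
  have h3 : 1 ≤ R ^ 2 := by nlinarith
  have h4 := mul_le_mul_of_nonneg_left h3 (h1.trans h2)
  unfold KK
  nlinarith [h1.trans h2]

theorem tt_le (hR : 2 ≤ R) : tt R ≤ 1 / R := by
  have hm := mm_pos hR
  have hm2 := mm_le hR
  have hK := KK_ge hR
  have hK0 := KK_pos hR
  have h1 : Real.log R ≤ KK R / mm R := by
    rw [le_div_iff₀ hm]
    have h3 : 0 ≤ Real.log R := Real.log_nonneg (by linarith)
    nlinarith
  calc tt R ≤ Real.exp (-Real.log R) := Real.exp_le_exp.mpr (by linarith)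
    _ = 1 / R := by rw [Real.exp_neg, Real.exp_log (by linarith), one_div]

theorem one_div_le_half (hR : 2 ≤ R) : 1 / R ≤ 1 / 2 := one_div_le_one_div_of_le (by norm_num) hR

theorem one_div_pos' (hR : 2 ≤ R) : 0 < 1 / R := by positivity

/-- upper bound for the small-hole terms -/
theorem hole_term (hR : 2 ≤ R) {ξ : ℂ} {r : ℝ} (hr : tt R ≤ r) (h : ‖ξ‖ ≤ r) :
    mm R * L (ξ / (tt R : ℝ)) ≤ AA R + mm R * Real.log r := by
  have ht := tt_pos R
  have hr0 : 0 < r := ht.trans_le hr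
  have h1 : L (ξ / (tt R : ℝ)) ≤ Real.log (r / tt R) + G 0 := by
    apply L_le'
    · rw [le_div_iff₀ ht]; linarith
    · rw [norm_div, Complex.norm_real, Real.norm_of_nonneg ht.le]
      gcongr
  have h2 : Real.log (r / tt R) = Real.log r + Real.log (1 / tt R) := by
    rw [← Real.log_mul hr0.ne' (by positivity)]
    congr 1
    ring
  have hm := mm_pos hR
  calc mm R * L (ξ / (tt R : ℝ)) ≤ mm R * (Real.log (r / tt R) + G 0) := by gcongr
    _ = mm R * Real.log (1 / tt R) + mm R * G 0 + mm R * Real.log r := by rw [h2]; ring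
    _ = AA R + mm R * Real.log r := by rw [log_tt hR]; rfl

theorem norm_pt (hR : 2 ≤ R) : ‖((1 / R : ℝ) : ℂ)‖ = 1 / R := by
  rw [Complex.norm_real, Real.norm_of_nonneg (one_div_pos' hR).le]

theorem norm_pt' (hR : 2 ≤ R) : ‖((-(1 / R) : ℝ) : ℂ)‖ = 1 / R := by
  rw [Complex.norm_real, norm_neg, Real.norm_of_nonneg (one_div_pos' hR).le]

theorem psi_nonneg (hR : 2 ≤ R) (ζ : ℂ) : 0 ≤ psi R ζ := by
  unfold psi
  have := mm_pos hR
  have h1 := L_nonneg ζ
  have h2 := L_nonneg ((ζ - (1 / R : ℝ)) / (tt R : ℝ))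
  have h3 := L_nonneg ((ζ - (-(1 / R) : ℝ)) / (tt R : ℝ))
  positivity

theorem psi_contDiff (R : ℝ) (n : ℕ) : ContDiff ℝ n (psi R) := by
  unfold psi
  have h1 := L_contDiff n
  have h2 : ContDiff ℝ n (fun ζ : ℂ => (ζ - (1 / R : ℝ)) / (tt R : ℝ)) := by fun_prop
  have h3 : ContDiff ℝ n (fun ζ : ℂ => (ζ - (-(1 / R) : ℝ)) / (tt R : ℝ)) := by fun_prop
  exact h1.add ((contDiff_const.mul (h1.comp h2)).add (contDiff_const.mul (h1.comp h3)))

theorem psi_upper (hR : 2 ≤ R) {ζ : ℂ} {r s : ℝ} (hr : 1 ≤ r) (h : ‖ζ‖ ≤ r) (hs : r + 1 / R ≤ s) :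
    psi R ζ ≤ 2 * AA R + (Real.log r + 1) + Real.log s := by
  have h0 := one_div_pos' hR
  have ht : tt R ≤ s := by linarith [tt_le hR]
  have h1 := hole_term hR (ξ := ζ - (1 / R : ℝ)) ht (by
    calc ‖ζ - (1 / R : ℝ)‖ ≤ ‖ζ‖ + ‖((1 / R : ℝ) : ℂ)‖ := norm_sub_le _ _
      _ ≤ s := by rw [norm_pt hR]; linarith)
  have h2 := hole_term hR (ξ := ζ - (-(1 / R) : ℝ)) ht (by
    calc ‖ζ - (-(1 / R) : ℝ)‖ ≤ ‖ζ‖ + ‖((-(1 / R) : ℝ) : ℂ)‖ := norm_sub_le _ _
      _ ≤ s := by rw [norm_pt' hR]; linarith)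
  have h3 := L_le hr h
  have h4 : 0 ≤ Real.log s := Real.log_nonneg (by linarith)
  have h5 := mm_le hR
  unfold psi
  nlinarith

theorem psi_b1 (hR : 2 ≤ R) (ζ : ℂ) (h : ‖ζ‖ ≤ 1) : psi R ζ ≤ 2 * AA R + 2 := by
  have h1 := psi_upper hR (le_refl 1) h (s := 2) (by linarith [one_div_le_half hR])
  rw [Real.log_one] at h1
  have h2 : Real.log 2 ≤ 1 := by
    have := Real.log_le_sub_one_of_pos (show (0:ℝ) < 2 by norm_num)
    linarith
  linarith

theorem psi_b4 (hR : 2 ≤ R) (ζ : ℂ) (h : ‖ζ‖ ≤ R) :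
    psi R ζ ≤ 2 * AA R + 1 + 2 * Real.log (R + 1) := by
  have h1 := psi_upper hR (by linarith) h (s := R + 1) (by linarith [one_div_le_half hR])
  have h2 : Real.log R ≤ Real.log (R + 1) := Real.log_le_log (by linarith) (by linarith)
  linarith

theorem log_two_div_le (hR : 2 ≤ R) : Real.log (2 * (1 / R)) ≤ 0 :=
  Real.log_nonpos (by positivity) (by linarith [one_div_le_half hR])

theorem psi_b2 (hR : 2 ≤ R) : psi R (1 / R : ℝ) ≤ AA R + 1 := by
  have h0 := one_div_pos' hR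
  have hle : L ((1 / R : ℝ) : ℂ) ≤ 1 := by
    have := L_le (ζ := ((1 / R : ℝ) : ℂ)) (r := 1) le_rfl (by rw [norm_pt hR]; linarith [one_div_le_half hR])
    rw [Real.log_one] at this
    linarith
  have h2 := hole_term hR (ξ := ((1 / R : ℝ) : ℂ) - (-(1 / R) : ℝ)) (r := 2 * (1 / R)) (by linarith [tt_le hR]) (by
    calc ‖((1 / R : ℝ) : ℂ) - (-(1 / R) : ℝ)‖ ≤ ‖((1 / R : ℝ) : ℂ)‖ + ‖((-(1 / R) : ℝ) : ℂ)‖ := norm_sub_le _ _
      _ ≤ 2 * (1 / R) := by rw [norm_pt' hR, norm_pt hR]; linarith)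
  have h3 := log_two_div_le hR
  have h4 := mm_pos hR
  unfold psi
  rw [sub_self, zero_div, L_zero, mul_zero, zero_add]
  nlinarith

theorem psi_b2' (hR : 2 ≤ R) : psi R (-(1 / R : ℝ)) ≤ AA R + 1 := by
  have h0 := one_div_pos' hR
  have hle : L (-((1 / R : ℝ) : ℂ)) ≤ 1 := by
    have := L_le (ζ := -((1 / R : ℝ) : ℂ)) (r := 1) le_rfl (by rw [norm_neg, norm_pt hR]; linarith [one_div_le_half hR])
    rw [Real.log_one] at this
    linarith
  have h2 := hole_term hR (ξ := (-((1 / R : ℝ) : ℂ)) - (1 / R : ℝ)) (r := 2 * (1 / R)) (by linarith [tt_le hR]) (by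
    calc ‖(-((1 / R : ℝ) : ℂ)) - (1 / R : ℝ)‖ ≤ ‖-((1 / R : ℝ) : ℂ)‖ + ‖((1 / R : ℝ) : ℂ)‖ := norm_sub_le _ _
      _ ≤ 2 * (1 / R) := by rw [norm_neg, norm_pt hR]; linarith)
  have h3 := log_two_div_le hR
  have h4 := mm_pos hR
  unfold psi
  have h5 : (-((1 / R : ℝ) : ℂ)) - ((-(1 / R) : ℝ) : ℂ) = 0 := by push_cast; ring
  rw [h5, zero_div, L_zero, mul_zero, add_zero]
  nlinarith

theorem psi_b3 (hR : 2 ≤ R) : 2 * AA R - 1 ≤ psi R 0 := by
  have h0 := one_div_pos' hR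
  have ht := tt_pos R
  have hm := mm_pos hR
  have key : ∀ ξ : ℂ, ‖ξ‖ = 1 / R → mm R * L (ξ / (tt R : ℝ)) = AA R - mm R * Real.log R := by
    intro ξ hξ
    have h1 : ‖ξ / (tt R : ℝ)‖ = (1 / R) / tt R := by
      rw [norm_div, Complex.norm_real, Real.norm_of_nonneg ht.le, hξ]
    rw [L_big (by rw [h1, le_div_iff₀ ht]; linarith [tt_le hR]), h1]
    have h2 : Real.log ((1 / R) / tt R) = Real.log (1 / tt R) - Real.log R := by
      rw [← Real.log_div (by positivity) (by linarith)]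
      congr 1
      ring
    rw [h2]
    have := log_tt hR
    unfold AA
    rw [← this]
    ring
  unfold psi
  rw [L_zero, key _ (by rw [zero_sub, norm_neg, norm_pt hR]), key _ (by rw [zero_sub, norm_neg, norm_pt' hR])]
  have := mm_log hR
  linarith

theorem AA_ge (hR : 2 ≤ R) : 2 * Real.log (R + 1) * R ^ 2 ≤ AA R := by
  have := mm_pos hR
  have h2 := G_nonneg 0
  unfold AA KK
  nlinarith [mul_nonneg this.le h2]

/-- the three pieces of a rescaled block -/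
theorem psi_scaled (R : ℝ) {d : ℝ} (hd : 0 < d) (a z : ℂ) :
    psi R ((z - a) / d) = L ((z - a) / d) +
      (mm R * L ((z - (a + (d * (1 / R) : ℝ))) / (d * tt R : ℝ)) +
       mm R * L ((z - (a + (d * (-(1 / R)) : ℝ))) / (d * tt R : ℝ))) := by
  have hd' : (d : ℂ) ≠ 0 := by exact_mod_cast hd.ne'
  have ht : (tt R : ℂ) ≠ 0 := by exact_mod_cast (tt_pos R).ne'
  have key : ∀ x : ℝ, ((z - a) / d - (x : ℝ)) / (tt R : ℝ) = (z - (a + (d * x : ℝ))) / (d * tt R : ℝ) := by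
    intro x
    push_cast
    field_simp
    ring
  unfold psi
  rw [key, key]

theorem psi_appr_hole (hR : 2 ≤ R) {d ε : ℝ} (hd : 0 < d) (hε : 0 ≤ ε) (a : ℂ) :
    Appr (fun z => ε * (mm R * L ((z - (a + (d * (1 / R) : ℝ))) / (d * tt R : ℝ)) +
       mm R * L ((z - (a + (d * (-(1 / R)) : ℝ))) / (d * tt R : ℝ)))) := by
  have hm := mm_pos hR
  have ht := tt_pos R
  have h1 := (Appr.basic (c := ε * mm R) (by positivity) (a + (d * (1 / R) : ℝ)) (t := d * tt R) (by positivity))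
  have h2 := (Appr.basic (c := ε * mm R) (by positivity) (a + (d * (-(1 / R)) : ℝ)) (t := d * tt R) (by positivity))
  have h3 := h1.add h2
  convert h3 using 2 with z
  ring

theorem psi_appr (hR : 2 ≤ R) {d ε : ℝ} (hd : 0 < d) (hε : 0 ≤ ε) (a : ℂ) :
    Appr (fun z => ε * psi R ((z - a) / d)) := by
  have h1 := (Appr.basic (c := ε) hε a (t := d) hd).add (psi_appr_hole hR hd hε a)
  convert h1 using 2 with z
  rw [psi_scaled R hd]
  ring

end Pool.Agent.H788R3.Sq
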