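import Pool.Agent.H788R3.Sq.Local

set_option autoImplicit false
open MeasureTheory Set Metric Complex Filter Topology

namespace Pool.Agent.H788R3.Sq

theorem coord_deriv {g : ℂ → E2} {g' : E2} {x : ℂ} (h : HasDerivAt g g' x) (i : Fin 2) :
    HasDerivAt (fun y => g y i) (g' i) x := by
  have h1 : HasFDerivAt (EuclideanSpace.proj (𝕜 := ℂ) i : E2 →L[ℂ] ℂ) (EuclideanSpace.proj (𝕜 := ℂ) i : E2 →L[ℂ] ℂ) (g x) :=
    ContinuousLinearMap.hasFDerivAt _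
  exact h1.comp_hasDerivAt x h

theorem Phi_diff_zeta {k : ℕ} {H : ℂ → ℂ} (hHd : DifferentiableOn ℂ H (ball ((ar k : ℝ) : ℂ) (RR k * dd k)))
    (ω : ℂ) {ζ : ℂ} (hζ : ‖ζ‖ < RR k) : DifferentiableAt ℂ (fun ζ => Phi k H ω ζ) ζ := by
  have hb := mem_blk hζ
  have hin : DifferentiableAt ℂ (fun ζ : ℂ => ((ar k : ℝ) : ℂ) + (dd k : ℝ) * ζ) ζ := by fun_prop
  have hH : DifferentiableAt ℂ H (((ar k : ℝ) : ℂ) + (dd k : ℝ) * ζ) := hHd.differentiableAt (isOpen_ball.mem_nhds hb)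
  have hcomp : DifferentiableAt ℂ (fun ζ : ℂ => H (((ar k : ℝ) : ℂ) + (dd k : ℝ) * ζ)) ζ := hH.comp ζ hin
  rw [differentiableAt_euclidean]
  intro i
  fin_cases i
  · show DifferentiableAt ℂ (fun ζ => (Phi k H ω ζ) 0) ζ
    simp only [Phi_zero]
    exact hin
  · show DifferentiableAt ℂ (fun ζ => (Phi k H ω ζ) 1) ζ
    simp only [Phi_one]
    exact ((differentiableAt_const _).sub hcomp).cexp

theorem Phi_diff_omega (k : ℕ) (H : ℂ → ℂ) (ω ζ : ℂ) : DifferentiableAt ℂ (fun ω => Phi k H ω ζ) ω := by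
  rw [differentiableAt_euclidean]
  intro i
  fin_cases i
  · show DifferentiableAt ℂ (fun ω => (Phi k H ω ζ) 0) ω
    simp only [Phi_zero]
    exact differentiableAt_const _
  · show DifferentiableAt ℂ (fun ω => (Phi k H ω ζ) 1) ω
    simp only [Phi_one]
    fun_prop

theorem squeeze_bound (k : ℕ) : ∃ x ∈ Om, ∀ σ : ℝ, 0 < σ → ∀ f : E2 → E2, DifferentiableOn ℂ f Om →
    InjOn f Om → MapsTo f Om (ball 0 1) → f x = 0 → ball 0 σ ⊆ f '' Om →
    σ ≤ 131 / RR k * Real.exp 5 := by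
  obtain ⟨H, hHd, hH⟩ := sum_harm k
  have hR := RR_ge k
  have hR0 : 0 < RR k := by linarith
  have hd := dd_pos k
  have he := ee_pos k
  set ω0 : ℂ := ((2 * AA (RR k) + 4 : ℝ) : ℂ) with hω0
  have hslice : ∀ ζ : ℂ, ‖ζ‖ ≤ 1 → Phi k H ω0 ζ ∈ Om := by
    intro ζ hζ
    apply Phi_mem hH (by linarith)
    have := psi_b1 hR ζ hζ
    rw [hω0, Complex.ofReal_re]
    linarith
  have hx : Phi k H ω0 0 ∈ Om := hslice 0 (by simp)
  refine ⟨Phi k H ω0 0, hx, ?_⟩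
  intro σ hσ f hf hinj hmaps hfx hball
  -- first estimate
  have hD1 := main1 (V := E2) (F := fun ω ζ => f (Phi k H ω ζ)) (ψ := psi (RR k)) (A := AA (RR k)) hR (AA_ge hR)
    (psi_b1 hR) (psi_b2 hR) (psi_b2' hR) (psi_b4 hR)
    (fun ω ζ hζ hω => by
      have h1 : DifferentiableAt ℂ f (Phi k H ω ζ) := hf.differentiableAt (Om_open.mem_nhds (Phi_mem hH hζ hω))
      exact h1.comp ζ (Phi_diff_zeta hHd ω hζ))
    (fun ω ζ hζ hω => by
      have h1 : DifferentiableAt ℂ f (Phi k H ω ζ) := hf.differentiableAt (Om_open.mem_nhds (Phi_mem hH hζ hω))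
      exact DifferentiableAt.comp (g := f) (f := fun ω => Phi k H ω ζ) ω h1 (Phi_diff_omega k H ω ζ))
    (fun ω ζ hζ hω => by
      have := hmaps (Phi_mem hH hζ hω)
      exact (mem_ball_zero_iff.mp this).le)
  set D1 : E2 := deriv (fun ζ => f (Phi k H ω0 ζ)) 0 with hD1def
  have hD1' : ‖D1‖ ≤ 131 / RR k := hD1
  -- the inverse
  obtain ⟨hopen, Ψ, hΨ, hinv⟩ := osgoodE Om_open hf hinj
  have hγd : DifferentiableAt ℂ (fun ζ => Phi k H ω0 ζ) 0 := Phi_diff_zeta hHd ω0 (by simpa using hR0)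
  have hfγd : DifferentiableAt ℂ (fun ζ => f (Phi k H ω0 ζ)) 0 := by
    have h1 : DifferentiableAt ℂ f (Phi k H ω0 0) := hf.differentiableAt (Om_open.mem_nhds hx)
    exact h1.comp (0:ℂ) hγd
  set γ' : E2 := deriv (fun ζ => Phi k H ω0 ζ) 0 with hγ'
  have hzero_mem : (0 : E2) ∈ f '' Om := ⟨_, hx, hfx⟩
  have hΨ0 : HasFDerivAt Ψ (fderiv ℂ Ψ 0) 0 := (hΨ.differentiableAt (hopen.mem_nhds hzero_mem)).hasFDerivAt
  have hΨD : fderiv ℂ Ψ 0 D1 = γ' := by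
    have h1 : HasDerivAt (fun ζ => f (Phi k H ω0 ζ)) D1 0 := hfγd.hasDerivAt
    have h2 : HasFDerivAt Ψ (fderiv ℂ Ψ 0) (f (Phi k H ω0 0)) := by rw [hfx]; exact hΨ0
    have h3 : HasDerivAt (Ψ ∘ fun ζ => f (Phi k H ω0 ζ)) (fderiv ℂ Ψ 0 D1) 0 := h2.comp_hasDerivAt (0:ℂ) h1
    have h4 : (Ψ ∘ fun ζ => f (Phi k H ω0 ζ)) =ᶠ[𝓝 0] fun ζ => Phi k H ω0 ζ := by
      filter_upwards [closedBall_mem_nhds (0:ℂ) one_pos] with ζ hζ
      exact hinv _ (hslice ζ (by simpa using hζ))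
    have h5 := h3.congr_of_eventuallyEq h4.symm
    exact h5.unique hγd.hasDerivAt
  have hγ0 : γ' 0 = (dd k : ℝ) := by
    have h1 : HasDerivAt (fun ζ => (Phi k H ω0 ζ) 0) (γ' 0) 0 := by
      have := hγd.hasDerivAt
      exact coord_deriv this 0
    simp only [Phi_zero] at h1
    have h2 : HasDerivAt (fun ζ : ℂ => ((ar k : ℝ) : ℂ) + (dd k : ℝ) * ζ) ((dd k : ℝ) * 1) 0 :=
      ((hasDerivAt_id (0:ℂ)).const_mul _).const_add _
    rw [mul_one] at h2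
    exact h1.unique h2
  have hD1ne : D1 ≠ 0 := by
    intro h
    rw [h, map_zero] at hΨD
    rw [← hΨD] at hγ0
    have : (dd k : ℂ) ≠ 0 := by exact_mod_cast hd.ne'
    exact this (by rw [← hγ0]; simp)
  have hD1pos : 0 < ‖D1‖ := norm_pos_iff.mpr hD1ne
  -- the disc
  set c0 : ℝ := σ / ‖D1‖ with hc0
  have hc0pos : 0 < c0 := by positivity
  set g : ℂ → E2 := fun lam => Ψ (((c0 : ℝ) * lam : ℂ) • D1) with hg
  have hpt : ∀ lam ∈ ball (0:ℂ) 1, ((c0 : ℝ) * lam : ℂ) • D1 ∈ ball (0 : E2) σ := by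
    intro lam hlam
    have hlam' : ‖lam‖ < 1 := by simpa using hlam
    rw [mem_ball_zero_iff, norm_smul, norm_mul, Complex.norm_real, Real.norm_of_nonneg hc0pos.le, hc0]
    have : σ / ‖D1‖ * ‖lam‖ * ‖D1‖ = σ * ‖lam‖ := by field_simp
    rw [this]
    nlinarith
  have hgΩ : ∀ lam ∈ ball (0:ℂ) 1, g lam ∈ Om := by
    intro lam hlam
    obtain ⟨y, hy, hyeq⟩ := hball (hpt lam hlam)
    rw [hg]
    simp only
    rw [← hyeq, hinv y hy]
    exact hy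
  have hlin : ∀ lam : ℂ, DifferentiableAt ℂ (fun lam : ℂ => ((c0 : ℝ) * lam : ℂ) • D1) lam := by
    intro lam
    fun_prop
  have hgd : DifferentiableOn ℂ g (ball 0 1) := by
    intro lam hlam
    have h1 : DifferentiableAt ℂ Ψ (((c0 : ℝ) * lam : ℂ) • D1) :=
      hΨ.differentiableAt (hopen.mem_nhds (hball (hpt lam hlam)))
    exact (h1.comp lam (hlin lam)).differentiableWithinAt
  have hg0 : g 0 = Phi k H ω0 0 := by
    rw [hg]
    simp only [mul_zero, zero_smul]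
    rw [← hfx]
    exact hinv _ hx
  have hgderiv : HasDerivAt g ((c0 : ℂ) • γ') 0 := by
    have h1 : HasDerivAt (fun lam : ℂ => ((c0 : ℝ) * lam : ℂ) • D1) ((c0 : ℂ) • D1) 0 := by
      have h2 : HasDerivAt (fun lam : ℂ => ((c0 : ℝ) * lam : ℂ)) ((c0 : ℂ) * 1) 0 :=
        (hasDerivAt_id (0:ℂ)).const_mul _
      rw [mul_one] at h2
      exact h2.smul_const D1
    have h3 : HasFDerivAt Ψ (fderiv ℂ Ψ 0) (((c0 : ℝ) * (0:ℂ) : ℂ) • D1) := by
      rw [mul_zero, zero_smul]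
      exact hΨ0
    have h4 := h3.comp_hasDerivAt (0:ℂ) h1
    rw [map_smul, hΨD] at h4
    exact h4
  have hg1d : HasDerivAt (fun lam => g lam 0) ((c0 : ℂ) * (dd k : ℝ)) 0 := by
    have h2 := coord_deriv hgderiv 0
    have h3 : ((c0 : ℂ) • γ') 0 = (c0 : ℂ) * (dd k : ℝ) := by
      rw [PiLp.smul_apply, hγ0, smul_eq_mul]
    rw [h3] at h2
    exact h2
  -- the Schwarz estimate
  set P : ℂ → ℝ := fun z => ∑ j ∈ Finset.range k, ee j * psi (RR j) ((z - (ar j : ℝ)) / (dd j : ℝ)) +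
    ee k * (mm (RR k) * L ((z - (((ar k : ℝ) : ℂ) + (dd k * (1 / RR k) : ℝ))) / (dd k * tt (RR k) : ℝ)) +
       mm (RR k) * L ((z - (((ar k : ℝ) : ℂ) + (dd k * (-(1 / RR k)) : ℝ))) / (dd k * tt (RR k) : ℝ))) with hP
  have hPappr : Appr P := (partial_appr k).add (psi_appr_hole hR hd he.le _)
  have hPsum : ∀ z : ℂ, P z + ee k * L ((z - (ar k : ℝ)) / (dd k : ℝ)) =
      ∑ j ∈ Finset.range (k + 1), ee j * psi (RR j) ((z - (ar j : ℝ)) / (dd j : ℝ)) := by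
    intro z
    rw [hP, Finset.sum_range_succ, psi_scaled (RR k) hd]
    ring
  have hg10 : (fun lam => g lam 0) 0 = ((ar k : ℝ) : ℂ) := by
    simp only
    rw [hg0, Phi_zero, mul_zero, add_zero]
  have hg20 : g 0 1 = Complex.exp (-((ee k : ℝ) * ω0) - H (ar k : ℝ)) := by
    rw [hg0, Phi_one, mul_zero, add_zero]
  have hz2 : ∀ v ∈ Om, ‖v 0‖ ≤ Real.exp 3 + 1 := fun v hv => by linarith [Om_z hv]
  have hsch := main2 (g1 := fun lam => g lam 0) (g2 := fun lam => g lam 1) (a := ((ar k : ℝ) : ℂ))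
    ((coord_diff 0).comp_differentiableOn hgd) ((coord_diff 1).comp_differentiableOn hgd)
    hg10 (by rw [hg20]; exact Complex.exp_ne_zero _) (P := P) (φ := phi) hPappr he hd
    (fun lam hlam => by
      rw [hPsum]
      exact partial_le (hz2 _ (hgΩ lam hlam)) (k + 1))
    (fun lam hlam => (Om_w (hgΩ lam hlam)).le)
    (by
      rw [hg1d.deriv]
      apply mul_ne_zero
      · exact_mod_cast hc0pos.ne'
      · exact_mod_cast hd.ne')
  rw [hg1d.deriv, hg20, Complex.norm_exp, Real.log_exp, norm_mul, Complex.norm_real, Complex.norm_real,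
    Real.norm_of_nonneg hc0pos.le, Real.norm_of_nonneg hd.le, mul_div_assoc, div_self hd.ne', mul_one] at hsch
  have hctr : ((ar k : ℝ) : ℂ) ∈ ball ((ar k : ℝ) : ℂ) (RR k * dd k) := mem_ball_self (by positivity)
  have hPa : P ((ar k : ℝ) : ℂ) = (H ((ar k : ℝ) : ℂ)).re + ee k * psi (RR k) 0 := by
    have h1 := hPsum ((ar k : ℝ) : ℂ)
    rw [Finset.sum_range_succ, hH _ hctr, sub_self, zero_div, L_zero, mul_zero, add_zero] at h1
    exact h1
  rw [hPa] at hsch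
  have hre : (-((ee k : ℝ) * ω0 : ℂ) - H (ar k : ℝ)).re = -(ee k * (2 * AA (RR k) + 4)) - (H (ar k : ℝ)).re := by
    rw [Complex.sub_re, Complex.neg_re, Complex.re_ofReal_mul, hω0, Complex.ofReal_re]
  rw [hre] at hsch
  have hb3 := psi_b3 hR
  have hlog : Real.log c0 ≤ 5 := by
    have h1 : ee k * Real.log c0 ≤ ee k * 5 := by nlinarith
    exact le_of_mul_le_mul_left h1 he
  have hc05 : c0 ≤ Real.exp 5 := (Real.log_le_iff_le_exp hc0pos).mp hlog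
  rw [hc0, div_le_iff₀ hD1pos] at hc05
  calc σ ≤ Real.exp 5 * ‖D1‖ := hc05
    _ ≤ Real.exp 5 * (131 / RR k) := by gcongr
    _ = 131 / RR k * Real.exp 5 := by ring

theorem no_bound (c : ℝ) (hc : 0 < c) : ∃ x ∈ Om, ¬ ∃ f : E2 → E2, DifferentiableOn ℂ f Om ∧
    InjOn f Om ∧ MapsTo f Om (ball 0 1) ∧ f x = 0 ∧ ball 0 c ⊆ f '' Om := by
  obtain ⟨k, hk⟩ := exists_nat_gt (131 * Real.exp 5 / c)
  obtain ⟨x, hx, hb⟩ := squeeze_bound k
  refine ⟨x, hx, ?_⟩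
  rintro ⟨f, h1, h2, h3, h4, h5⟩
  have h6 := hb c hc f h1 h2 h3 h4 h5
  have hR := RR_ge k
  have hRk : (k:ℝ) < RR k := by unfold RR; linarith
  have h7 : 131 * Real.exp 5 / c < RR k := hk.trans hRk
  rw [div_lt_iff₀ hc] at h7
  rw [div_mul_eq_mul_div, le_div_iff₀ (by linarith)] at h6
  linarith

end Pool.Agent.H788R3.Sq
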