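import Mathlib

set_option autoImplicit false
open MeasureTheory Set Metric Complex Filter Topology

namespace Pool.Agent.H788R3.Sq

/-- smooth convex function, zero for `t ≤ -1`, slope one for `t ≥ 0` -/
noncomputable def G (t : ℝ) : ℝ := ∫ s in (-1:ℝ)..t, Real.smoothTransition (s + 1)

theorem cont_sT : Continuous (fun s : ℝ => Real.smoothTransition (s + 1)) :=
  Real.smoothTransition.continuous.comp (continuous_id.add continuous_const)

theorem G_deriv (t : ℝ) : HasDerivAt G (Real.smoothTransition (t + 1)) t :=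
  intervalIntegral.integral_hasDerivAt_right (cont_sT.intervalIntegrable _ _)
    (cont_sT.stronglyMeasurableAtFilter _ _) cont_sT.continuousAt

theorem G_contDiff (n : ℕ) : ContDiff ℝ n G := by
  have h : ContDiff ℝ ((n : WithTop ℕ∞) + 1) G := by
    rw [contDiff_succ_iff_deriv]
    refine ⟨fun t => (G_deriv t).differentiableAt, ?_, ?_⟩
    · intro h
      exact absurd h (by simp)
    · have : deriv G = fun t => Real.smoothTransition (t + 1) := funext fun t => (G_deriv t).deriv
      rw [this]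
      have h1 : ContDiff ℝ ((n : ℕ∞) : WithTop ℕ∞) Real.smoothTransition := Real.smoothTransition.contDiff
      have h2 : ContDiff ℝ ((n : ℕ∞) : WithTop ℕ∞) (fun t : ℝ => t + 1) := by fun_prop
      exact h1.comp h2
  exact h.of_le (by exact_mod_cast (by simp))

theorem G_zero {t : ℝ} (ht : t ≤ -1) : G t = 0 := by
  unfold G
  rw [intervalIntegral.integral_symm, intervalIntegral.integral_of_le ht]
  rw [setIntegral_eq_zero_of_forall_eq_zero]
  · simp
  · intro s hs
    exact Real.smoothTransition.zero_of_nonpos (by linarith [hs.2])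

theorem G_mono : Monotone G := by
  apply monotone_of_deriv_nonneg (fun t => (G_deriv t).differentiableAt)
  intro t
  rw [(G_deriv t).deriv]
  exact Real.smoothTransition.nonneg _

theorem G_nonneg (t : ℝ) : 0 ≤ G t := by
  rcases le_total t (-1) with h | h
  · rw [G_zero h]
  · calc 0 = G (-1) := (G_zero le_rfl).symm
      _ ≤ G t := G_mono h

theorem G_convex (t t0 : ℝ) : G t0 + Real.smoothTransition (t0 + 1) * (t - t0) ≤ G t := by
  have hconv : ConvexOn ℝ univ G := by
    apply MonotoneOn.convexOn_of_deriv convex_univ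
    · exact (continuous_iff_continuousAt.mpr (fun t => (G_deriv t).continuousAt)).continuousOn
    · intro t _
      exact (G_deriv t).differentiableAt.differentiableWithinAt
    · intro x _ y _ hxy
      rw [(G_deriv x).deriv, (G_deriv y).deriv]
      exact Real.smoothTransition.monotone (by linarith)
  rcases lt_trichotomy t t0 with h | h | h
  · have h1 := hconv.slope_le_of_hasDerivAt (mem_univ t) (mem_univ t0) h (G_deriv t0)
    rw [slope_def_field, div_le_iff₀ (by linarith)] at h1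
    nlinarith
  · subst h
    simp
  · have h1 := hconv.le_slope_of_hasDerivAt (mem_univ t0) (mem_univ t) h (G_deriv t0)
    rw [slope_def_field, le_div_iff₀ (by linarith)] at h1
    nlinarith

theorem G_pos_eq {t : ℝ} (ht : 0 ≤ t) : G t = t + G 0 := by
  have h1 := G_convex t 0
  have h2 := G_convex 0 t
  rw [Real.smoothTransition.one_of_one_le (by linarith)] at h1 h2
  linarith

theorem G0_le : G 0 ≤ 1 := by
  have h := G_convex (-1) 0
  rw [G_zero le_rfl, Real.smoothTransition.one_of_one_le (by norm_num)] at h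
  linarith

/-- smoothed logarithm -/
noncomputable def L (ζ : ℂ) : ℝ := if ζ = 0 then 0 else G (Real.log ‖ζ‖)

theorem L_zero : L 0 = 0 := by simp [L]

theorem L_of_ne {ζ : ℂ} (h : ζ ≠ 0) : L ζ = G (Real.log ‖ζ‖) := by simp [L, h]

theorem L_nonneg (ζ : ℂ) : 0 ≤ L ζ := by
  unfold L
  split_ifs
  · exact le_rfl
  · exact G_nonneg _

theorem L_small {ζ : ℂ} (h : ‖ζ‖ ≤ Real.exp (-1)) : L ζ = 0 := by
  rcases eq_or_ne ζ 0 with h0 | h0
  · rw [h0, L_zero]
  · rw [L_of_ne h0]
    apply G_zero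
    rw [Real.log_le_iff_le_exp (norm_pos_iff.mpr h0)]
    exact h

theorem L_mono {ζ ξ : ℂ} (h : ‖ζ‖ ≤ ‖ξ‖) : L ζ ≤ L ξ := by
  rcases eq_or_ne ζ 0 with h0 | h0
  · rw [h0, L_zero]
    exact L_nonneg _
  · have h1 : 0 < ‖ζ‖ := norm_pos_iff.mpr h0
    have h2 : ξ ≠ 0 := norm_pos_iff.mp (h1.trans_le h)
    rw [L_of_ne h0, L_of_ne h2]
    exact G_mono (Real.log_le_log h1 h)

theorem L_big {ζ : ℂ} (h : 1 ≤ ‖ζ‖) : L ζ = Real.log ‖ζ‖ + G 0 := by
  have h0 : ζ ≠ 0 := norm_pos_iff.mp (by linarith)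
  rw [L_of_ne h0, G_pos_eq (Real.log_nonneg h)]

theorem L_le {ζ : ℂ} {r : ℝ} (hr : 1 ≤ r) (h : ‖ζ‖ ≤ r) : L ζ ≤ Real.log r + 1 := by
  have h1 : ‖ζ‖ ≤ ‖(r : ℂ)‖ := by
    rw [Complex.norm_real, Real.norm_of_nonneg (by linarith)]
    exact h
  have h2 : ‖(r : ℂ)‖ = r := by rw [Complex.norm_real, Real.norm_of_nonneg (by linarith)]
  calc L ζ ≤ L (r : ℂ) := L_mono h1
    _ = Real.log r + G 0 := by rw [L_big (by rw [h2]; exact hr), h2]
    _ ≤ _ := by linarith [G0_le]

theorem log_le_G (t : ℝ) : t ≤ G t := by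
  rcases le_total 0 t with h | h
  · rw [G_pos_eq h]
    linarith [G_nonneg 0]
  · exact h.trans (G_nonneg t)

theorem log_le_L {ζ : ℂ} (h : ζ ≠ 0) : Real.log ‖ζ‖ ≤ L ζ := by
  rw [L_of_ne h]
  exact log_le_G _

theorem L_contDiff (n : ℕ) : ContDiff ℝ n L := by
  rw [contDiff_iff_contDiffAt]
  intro ζ0
  rcases eq_or_ne ζ0 0 with h0 | h0
  · subst h0
    have : L =ᶠ[𝓝 0] fun _ => 0 := by
      filter_upwards [ball_mem_nhds (0:ℂ) (Real.exp_pos (-1))] with ζ hζ
      exact L_small (mem_ball_zero_iff.mp hζ).le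
    exact contDiffAt_const.congr_of_eventuallyEq this
  · have : L =ᶠ[𝓝 ζ0] fun ζ => G (Real.log ‖ζ‖) := by
      filter_upwards [isOpen_ne.mem_nhds h0] with ζ hζ
      exact L_of_ne hζ
    refine ContDiffAt.congr_of_eventuallyEq ?_ this
    have h1 : ContDiffAt ℝ n (fun ζ : ℂ => ‖ζ‖) ζ0 := contDiffAt_norm ℝ h0
    have h2 : ContDiffAt ℝ n (fun ζ : ℂ => Real.log ‖ζ‖) ζ0 := h1.log (norm_ne_zero_iff.mpr h0)
    exact (G_contDiff n).contDiffAt.comp ζ0 h2

/-- approximable potentials: suprema of `(1/n) log |f|` with `f` entire -/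
def Appr (P : ℂ → ℝ) : Prop := ∀ z0 : ℂ, ∀ δ : ℝ, 0 < δ → ∃ n0 : ℕ, ∀ n : ℕ, n0 ≤ n →
  ∃ f : ℂ → ℂ, Differentiable ℂ f ∧ (∀ z, ‖f z‖ ≤ Real.exp (n * P z)) ∧
    Real.exp (n * (P z0 - δ)) ≤ ‖f z0‖

theorem Appr.zero : Appr (fun _ => 0) := by
  intro z0 δ hδ
  refine ⟨0, fun n _ => ⟨fun _ => 1, by fun_prop, by simp, ?_⟩⟩
  simp only [norm_one, zero_sub, Real.exp_le_one_iff]
  have : (0:ℝ) ≤ n := Nat.cast_nonneg n
  nlinarith

theorem Appr.add {P Q : ℂ → ℝ} (hP : Appr P) (hQ : Appr Q) : Appr (fun z => P z + Q z) := by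
  intro z0 δ hδ
  obtain ⟨n1, h1⟩ := hP z0 (δ / 2) (by positivity)
  obtain ⟨n2, h2⟩ := hQ z0 (δ / 2) (by positivity)
  refine ⟨max n1 n2, fun n hn => ?_⟩
  obtain ⟨f, hf, hf1, hf2⟩ := h1 n (le_trans (le_max_left _ _) hn)
  obtain ⟨g, hg, hg1, hg2⟩ := h2 n (le_trans (le_max_right _ _) hn)
  refine ⟨fun z => f z * g z, hf.mul hg, ?_, ?_⟩
  · intro z
    rw [norm_mul, mul_add, Real.exp_add]
    exact mul_le_mul (hf1 z) (hg1 z) (norm_nonneg _) (Real.exp_pos _).le
  · rw [norm_mul]
    have : (n:ℝ) * (P z0 + Q z0 - δ) = n * (P z0 - δ / 2) + n * (Q z0 - δ / 2) := by ring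
    rw [this, Real.exp_add]
    exact mul_le_mul hf2 hg2 (Real.exp_pos _).le (norm_nonneg _)

theorem Appr.basic {c : ℝ} (hc : 0 ≤ c) (p : ℂ) {t : ℝ} (ht : 0 < t) :
    Appr (fun z => c * L ((z - p) / t)) := by
  have htriv : ∀ z0 : ℂ, c * L ((z0 - p) / t) = 0 → ∀ δ : ℝ, 0 < δ → ∃ n0 : ℕ, ∀ n : ℕ, n0 ≤ n →
      ∃ f : ℂ → ℂ, Differentiable ℂ f ∧ (∀ z, ‖f z‖ ≤ Real.exp (n * (c * L ((z - p) / t)))) ∧
      Real.exp (n * (c * L ((z0 - p) / t) - δ)) ≤ ‖f z0‖ := by
    intro z0 h0 δ hδ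
    refine ⟨0, fun n _ => ⟨fun _ => 1, by fun_prop, ?_, ?_⟩⟩
    · intro z
      rw [norm_one, Real.one_le_exp_iff]
      have := L_nonneg ((z - p) / t)
      positivity
    · rw [h0, norm_one, Real.exp_le_one_iff]
      have : (0:ℝ) ≤ n := Nat.cast_nonneg n
      nlinarith
  intro z0 δ hδ
  by_cases h0 : c * L ((z0 - p) / t) = 0
  · exact htriv z0 h0 δ hδ
  · have hc0 : c ≠ 0 := fun h => h0 (by rw [h, zero_mul])
    have hcpos : 0 < c := lt_of_le_of_ne hc (Ne.symm hc0)
    have hL0 : L ((z0 - p) / t) ≠ 0 := fun h => h0 (by rw [h, mul_zero])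
    have hζ0 : (z0 - p) / t ≠ 0 := by
      intro h
      rw [h, L_zero] at hL0
      exact hL0 rfl
    set t0 := Real.log ‖(z0 - p) / t‖ with ht0
    have ht01 : -1 < t0 := by
      by_contra h
      push Not at h
      rw [L_of_ne hζ0, G_zero h] at hL0
      exact hL0 rfl
    set α := Real.smoothTransition (t0 + 1) with hα
    have hα0 : 0 < α := Real.smoothTransition.pos_of_pos (by linarith)
    set e := G t0 / α with he
    have he0 : 0 ≤ e := div_nonneg (G_nonneg _) hα0.le
    obtain ⟨n0, hn0⟩ := exists_nat_ge (e / δ)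
    refine ⟨n0, fun n hn => ?_⟩
    set q : ℕ := ⌊(n:ℝ) * c * α⌋₊ with hq
    have hncα : 0 ≤ (n:ℝ) * c * α := by positivity
    have hq1 : (q:ℝ) ≤ n * c * α := Nat.floor_le hncα
    have hq2 : (n:ℝ) * c * α < q + 1 := Nat.lt_floor_add_one _
    set b : ℝ := n * c * G t0 - q * t0 - e with hb
    have hline : ∀ s : ℝ, q * s + b ≤ n * c * G s := by
      intro s
      have hn' : (0:ℝ) ≤ n * c := by positivity
      have hconv := G_convex s t0
      rw [← hα] at hconv
      have hconv' : n * c * (G t0 + α * (s - t0)) ≤ n * c * G s := by gcongr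
      rcases le_total t0 s with h | h
      · have h1 : (q:ℝ) * (s - t0) ≤ n * c * α * (s - t0) := by
          apply mul_le_mul_of_nonneg_right hq1 (by linarith)
        nlinarith
      · rcases le_total (t0 - e) s with h2 | h2
        · have h1 : ((q:ℝ) + 1) * (s - t0) ≤ n * c * α * (s - t0) := by
            apply mul_le_mul_of_nonpos_right hq2.le (by linarith)
          nlinarith
        · have h3 : ((q:ℝ) + 1) * e ≥ n * c * G t0 := by
            have : α * e = G t0 := by rw [he]; field_simp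
            calc ((q:ℝ) + 1) * e ≥ (n * c * α) * e := by
                  apply mul_le_mul_of_nonneg_right hq2.le he0
              _ = n * c * G t0 := by rw [mul_assoc, this]
          have h4 : (q:ℝ) * (t0 - s) ≥ q * e := by
            apply mul_le_mul_of_nonneg_left (by linarith) (Nat.cast_nonneg q)
          have h5 : 0 ≤ n * c * G s := mul_nonneg hn' (G_nonneg s)
          nlinarith
    refine ⟨fun z => ((z - p) / t) ^ q * (Real.exp b : ℂ), ?_, ?_, ?_⟩
    · fun_prop
    · intro z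
      show _ ≤ Real.exp (n * (c * L ((z - p) / t)))
      rw [norm_mul, norm_pow, Complex.norm_real, Real.norm_of_nonneg (Real.exp_pos b).le]
      rcases eq_or_ne ((z - p) / (t:ℂ)) 0 with hz | hz
      · rw [hz, norm_zero, L_zero, mul_zero, mul_zero, Real.exp_zero]
        rcases Nat.eq_zero_or_pos q with hq0 | hq0
        · have h6 := hline (-1)
          rw [hq0, G_zero le_rfl] at h6
          simp only [Nat.cast_zero, zero_mul, zero_add, mul_zero] at h6
          rw [hq0, pow_zero, one_mul]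
          exact Real.exp_le_one_iff.mpr h6
        · rw [zero_pow hq0.ne', zero_mul]
          exact zero_le_one
      · have hpos : 0 < ‖(z - p) / (t:ℂ)‖ := norm_pos_iff.mpr hz
        have h7 : ‖(z - p) / (t:ℂ)‖ ^ q = Real.exp (q * Real.log ‖(z - p) / (t:ℂ)‖) := by
          rw [mul_comm, Real.exp_mul, Real.exp_log hpos, Real.rpow_natCast]
        rw [h7, ← Real.exp_add, L_of_ne hz]
        apply Real.exp_le_exp.mpr
        have := hline (Real.log ‖(z - p) / (t:ℂ)‖)
        linarith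
    · show Real.exp (n * (c * L ((z0 - p) / t) - δ)) ≤ _
      rw [norm_mul, norm_pow, Complex.norm_real, Real.norm_of_nonneg (Real.exp_pos b).le]
      have hpos : 0 < ‖(z0 - p) / (t:ℂ)‖ := norm_pos_iff.mpr hζ0
      have h7 : ‖(z0 - p) / (t:ℂ)‖ ^ q = Real.exp (q * Real.log ‖(z0 - p) / (t:ℂ)‖) := by
        rw [mul_comm, Real.exp_mul, Real.exp_log hpos, Real.rpow_natCast]
      rw [h7, ← Real.exp_add, L_of_ne hζ0, ← ht0]
      apply Real.exp_le_exp.mpr
      have h8 : e ≤ n * δ := by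
        have : (n0:ℝ) ≤ n := by exact_mod_cast hn
        have h9 : e / δ ≤ n := hn0.trans this
        rwa [div_le_iff₀ hδ] at h9
      rw [hb]
      linarith

theorem Appr.sum {ι : Type*} (s : Finset ι) (P : ι → ℂ → ℝ) (h : ∀ i ∈ s, Appr (P i)) :
    Appr (fun z => ∑ i ∈ s, P i z) := by
  classical
  induction s using Finset.induction_on with
  | empty => simpa using Appr.zero
  | insert a s ha ih =>
    simp only [Finset.sum_insert ha]
    exact (h a (Finset.mem_insert_self a s)).add (ih (fun i hi => h i (Finset.mem_insert_of_mem hi)))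

end Pool.Agent.H788R3.Sq
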