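import Pool.Agent.H788R3.Sq.Domain

set_option autoImplicit false
open MeasureTheory Set Metric Complex Filter Topology

namespace Pool.Agent.H788R3.Sq

theorem coord_diff (i : Fin 2) : Differentiable ℂ (fun v : E2 => v i) := by fun_prop

theorem phi_eq {z : ℂ} (hz : ‖z‖ ≤ Real.exp 3 + 1) :
    phi z = ∑' k, ee k * psi (RR k) ((z - (ar k : ℝ)) / (dd k : ℝ)) := by
  unfold phi
  congr 1
  ext k
  rw [uu_eq hz]

theorem partial_le {z : ℂ} (hz : ‖z‖ ≤ Real.exp 3 + 1) (N : ℕ) :
    ∑ j ∈ Finset.range N, ee j * psi (RR j) ((z - (ar j : ℝ)) / (dd j : ℝ)) ≤ phi z := by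
  have h1 : ∑ j ∈ Finset.range N, ee j * psi (RR j) ((z - (ar j : ℝ)) / (dd j : ℝ))
      = ∑ j ∈ Finset.range N, ee j * uu j z := by
    apply Finset.sum_congr rfl
    intro j _
    rw [uu_eq hz]
  rw [h1]
  exact (term_summable z).sum_le_tsum _ (fun j _ => term_nonneg j z)

theorem partial_ge {z : ℂ} (hz : ‖z‖ ≤ Real.exp 3 + 1) {δ : ℝ} (hδ : 0 < δ) :
    ∃ N, phi z - δ ≤ ∑ j ∈ Finset.range N, ee j * psi (RR j) ((z - (ar j : ℝ)) / (dd j : ℝ)) := by
  have h1 := (term_summable z).hasSum.tendsto_sum_nat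
  have h2 : ∀ᶠ N in atTop, phi z - δ < ∑ j ∈ Finset.range N, ee j * uu j z :=
    h1.eventually (lt_mem_nhds (by unfold phi; linarith))
  obtain ⟨N, hN⟩ := h2.exists
  refine ⟨N, ?_⟩
  have h3 : ∑ j ∈ Finset.range N, ee j * psi (RR j) ((z - (ar j : ℝ)) / (dd j : ℝ))
      = ∑ j ∈ Finset.range N, ee j * uu j z := by
    apply Finset.sum_congr rfl
    intro j _
    rw [uu_eq hz]
  rw [h3]
  exact hN.le

def hullPred (K : Set E2) (v : E2) : Prop :=
  ∀ f : E2 → ℂ, DifferentiableOn ℂ f Om → ∀ c : ℝ, (∀ w ∈ K, ‖f w‖ ≤ c) → ‖f v‖ ≤ c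

/-- key estimate: hull points satisfy the same strict inequality -/
theorem hull_est {K : Set E2} (hKΩ : K ⊆ Om) {κ : ℝ} (hκ0 : 0 < κ)
    (hκ : ∀ v ∈ K, ‖v 1‖ ^ 2 * Real.exp (2 * phi (v 0)) ≤ κ * (1 - L (v 0 / (cc : ℝ))))
    {v : E2} (hv : v ∈ Om) (hh : hullPred K v) :
    ‖v 1‖ ^ 2 * Real.exp (2 * phi (v 0)) ≤ κ * (1 - L (v 0 / (cc : ℝ))) := by
  set b0 := L (v 0 / (cc : ℝ)) with hb0
  have hb01 : b0 < 1 := Om_L hv
  rcases eq_or_ne (v 1) 0 with hw0 | hw0
  · rw [hw0]
    simp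
    nlinarith
  have hwpos : 0 < ‖v 1‖ := norm_pos_iff.mpr hw0
  -- tangent line inequality on K
  set lam := 1 / (1 - b0) with hlam
  have hlam0 : 0 < lam := by rw [hlam]; apply one_div_pos.mpr; linarith
  set C0 := (1 / 2) * Real.log κ + (1 / 2) * Real.log (1 - b0) + lam / 2 * b0 with hC0
  have hK1 : ∀ w ∈ K, w 1 ≠ 0 → Real.log ‖w 1‖ + (phi (w 0) + lam / 2 * L (w 0 / (cc : ℝ))) ≤ C0 := by
    intro w hw hw1
    have h1 := hκ w hw
    have h2 : L (w 0 / (cc : ℝ)) < 1 := Om_L (hKΩ hw)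
    have h3 : 0 < ‖w 1‖ := norm_pos_iff.mpr hw1
    have h4 := Real.log_le_log (by positivity) h1
    rw [Real.log_mul (by positivity) (by positivity), Real.log_mul hκ0.ne' (by linarith), Real.log_exp,
      Real.log_pow] at h4
    push_cast at h4
    have h5 : Real.log (1 - L (w 0 / (cc : ℝ))) ≤ Real.log (1 - b0) - lam * (L (w 0 / (cc : ℝ)) - b0) := by
      have h6 := Real.log_le_sub_one_of_pos (show 0 < (1 - L (w 0 / (cc : ℝ))) / (1 - b0) by
        apply div_pos <;> linarith)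
      rw [Real.log_div (by linarith) (by linarith)] at h6
      have h7 : (1 - L (w 0 / (cc : ℝ))) / (1 - b0) - 1 = - (lam * (L (w 0 / (cc : ℝ)) - b0)) := by
        have : 1 - b0 ≠ 0 := by linarith
        rw [hlam]
        field_simp
        ring
      linarith
    rw [hC0]
    linarith
  -- apply approximants
  have key : ∀ δ : ℝ, 0 < δ →
      Real.log ‖v 1‖ + (phi (v 0) + lam / 2 * b0) ≤ C0 + 2 * δ := by
    intro δ hδ
    have hvz : ‖v 0‖ ≤ Real.exp 3 + 1 := by linarith [Om_z hv]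
    obtain ⟨N, hN⟩ := partial_ge hvz hδ
    have hap := (partial_appr N).add (Appr.basic (c := lam / 2) (by positivity) 0 cc_pos)
    obtain ⟨n0, hn0⟩ := hap (v 0) δ hδ
    set n := max n0 1 with hn
    obtain ⟨f, hf, hfb, hfv⟩ := hn0 n (le_max_left _ _)
    have hnpos : 0 < n := lt_of_lt_of_le one_pos (le_max_right _ _)
    have hnpos' : (0:ℝ) < n := by exact_mod_cast hnpos
    simp only [sub_zero] at hfb hfv
    have hFd : DifferentiableOn ℂ (fun v : E2 => v 1 ^ n * f (v 0)) Om := by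
      have h1 : Differentiable ℂ (fun v : E2 => f (v 0)) := hf.comp (coord_diff 0)
      exact (((coord_diff 1).pow n).mul h1).differentiableOn
    have h8 := hh (fun v : E2 => v 1 ^ n * f (v 0)) hFd (Real.exp (n * C0)) (by
      intro w hw
      rw [norm_mul, norm_pow]
      rcases eq_or_ne (w 1) 0 with hw1 | hw1
      · rw [hw1, norm_zero, zero_pow hnpos.ne', zero_mul]
        exact (Real.exp_pos _).le
      · have h3 : 0 < ‖w 1‖ := norm_pos_iff.mpr hw1
        have h7 : ‖w 1‖ ^ n = Real.exp (n * Real.log ‖w 1‖) := by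
          rw [mul_comm, Real.exp_mul, Real.exp_log h3, Real.rpow_natCast]
        have hwz : ‖w 0‖ ≤ Real.exp 3 + 1 := by linarith [Om_z (hKΩ hw)]
        have h9 := partial_le hwz N
        have h10 := hK1 w hw hw1
        calc ‖w 1‖ ^ n * ‖f (w 0)‖ ≤ Real.exp (n * Real.log ‖w 1‖) * Real.exp (n * _) := by
              rw [h7]
              gcongr
              exact hfb (w 0)
          _ ≤ Real.exp (n * C0) := by
              rw [← Real.exp_add, ← mul_add]
              apply Real.exp_le_exp.mpr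
              apply mul_le_mul_of_nonneg_left _ hnpos'.le
              linarith)
    have h9 : ‖v 1‖ ^ n * ‖f (v 0)‖ ≤ Real.exp (n * C0) := by
      have : ‖v 1 ^ n * f (v 0)‖ ≤ Real.exp (n * C0) := h8
      rwa [norm_mul, norm_pow] at this
    have h7 : ‖v 1‖ ^ n = Real.exp (n * Real.log ‖v 1‖) := by
      rw [mul_comm, Real.exp_mul, Real.exp_log hwpos, Real.rpow_natCast]
    have h10 := (mul_le_mul_of_nonneg_left hfv (pow_nonneg hwpos.le n)).trans h9
    rw [h7, ← Real.exp_add, Real.exp_le_exp, ← mul_add] at h10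
    have h11 := le_of_mul_le_mul_left h10 hnpos'
    linarith
  have key2 : Real.log ‖v 1‖ + (phi (v 0) + lam / 2 * b0) ≤ C0 := by
    apply le_of_forall_pos_le_add
    intro δ hδ
    have := key (δ / 2) (by positivity)
    linarith
  have h12 : 2 * (Real.log ‖v 1‖ + phi (v 0)) ≤ Real.log (κ * (1 - b0)) := by
    rw [Real.log_mul hκ0.ne' (by linarith)]
    rw [hC0] at key2
    linarith
  have h13 : ‖v 1‖ ^ 2 * Real.exp (2 * phi (v 0)) = Real.exp (2 * (Real.log ‖v 1‖ + phi (v 0))) := by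
    rw [mul_add, Real.exp_add]
    congr 1
    rw [mul_comm, Real.exp_mul, Real.exp_log hwpos]
    norm_cast
  rw [h13]
  have h14 : 0 < κ * (1 - b0) := by
    apply mul_pos hκ0
    linarith
  calc Real.exp (2 * (Real.log ‖v 1‖ + phi (v 0))) ≤ Real.exp (Real.log (κ * (1 - b0))) := Real.exp_le_exp.mpr h12
    _ = κ * (1 - b0) := Real.exp_log h14

theorem hull_compact (K : Set E2) (hK : IsCompact K) (hKΩ : K ⊆ Om) :
    IsCompact {v ∈ Om | hullPred K v} := by
  rcases K.eq_empty_or_nonempty with hKe | hKne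
  · have : {v ∈ Om | hullPred K v} = ∅ := by
      ext v
      simp only [mem_setOf_eq, mem_empty_iff_false, iff_false, not_and]
      intro _ hh
      have := hh (fun _ => 0) (differentiableOn_const _) (-1) (by rw [hKe]; simp)
      simp at this
      linarith
    rw [this]
    exact isCompact_empty
  -- maximum of |z|
  obtain ⟨v1, hv1, hv1max⟩ := hK.exists_isMaxOn hKne (f := fun v : E2 => ‖v 0‖)
    ((coord_diff 0).continuous.norm.continuousOn)
  set bm := L (v1 0 / (cc : ℝ)) with hbm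
  have hbm1 : bm < 1 := Om_L (hKΩ hv1)
  have hLcont : Continuous (fun v : E2 => L (v 0 / (cc : ℝ))) := by
    exact ((L_contDiff 0).continuous).comp ((coord_diff 0).continuous.div_const _)
  have hphicont : Continuous (fun v : E2 => ‖v 1‖ ^ 2 * Real.exp (2 * phi (v 0))) := by
    have h1 : Continuous (fun v : E2 => phi (v 0)) := (phi_contDiff 0).continuous.comp (coord_diff 0).continuous
    have h2 : Continuous (fun v : E2 => ‖v 1‖ ^ 2) := ((coord_diff 1).continuous.norm).pow 2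
    exact h2.mul (Real.continuous_exp.comp (continuous_const.mul h1))
  -- ratio
  obtain ⟨v2, hv2, hv2max⟩ := hK.exists_isMaxOn hKne
    (f := fun v : E2 => ‖v 1‖ ^ 2 * Real.exp (2 * phi (v 0)) / (1 - L (v 0 / (cc : ℝ))))
    (by
      apply ContinuousOn.div hphicont.continuousOn (continuous_const.sub hLcont).continuousOn
      intro v hv
      have := Om_L (hKΩ hv)
      have h : (0:ℝ) < 1 - L (v 0 / (cc : ℝ)) := by linarith
      exact h.ne')
  set κ := max (‖v2 1‖ ^ 2 * Real.exp (2 * phi (v2 0)) / (1 - L (v2 0 / (cc : ℝ)))) (1 / 2) with hκ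
  have hκ0 : 0 < κ := lt_of_lt_of_le (by norm_num) (le_max_right _ _)
  have hκ1 : κ < 1 := by
    rw [hκ]
    apply max_lt _ (by norm_num)
    have h1 := Om_L (hKΩ hv2)
    rw [div_lt_one (by linarith)]
    have h2 : rho v2 < 0 := hKΩ hv2
    unfold rho at h2
    linarith
  have hκK : ∀ v ∈ K, ‖v 1‖ ^ 2 * Real.exp (2 * phi (v 0)) ≤ κ * (1 - L (v 0 / (cc : ℝ))) := by
    intro v hv
    have h1 := Om_L (hKΩ hv)
    have h2 := hv2max hv
    have h3 : ‖v 1‖ ^ 2 * Real.exp (2 * phi (v 0)) / (1 - L (v 0 / (cc : ℝ))) ≤ κ := h2.trans (le_max_left _ _)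
    rwa [div_le_iff₀ (by linarith)] at h3
  -- compact sublevel set
  set S : Set E2 := {v | rho v ≤ -((1 - κ) * (1 - bm))} with hS
  have hδ : 0 < (1 - κ) * (1 - bm) := mul_pos (by linarith) (by linarith)
  have hSΩ : S ⊆ Om := by
    intro v hv
    have hv : rho v ≤ -((1 - κ) * (1 - bm)) := hv
    show rho v < 0
    linarith
  have hScomp : IsCompact S := by
    apply isCompact_of_isClosed_isBounded
    · exact isClosed_le rho_continuous continuous_const
    · exact Om_bounded.subset hSΩ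
  have hsub : {v ∈ Om | hullPred K v} ⊆ S := by
    rintro v ⟨hv, hh⟩
    have h1 := hull_est hKΩ hκ0 hκK hv hh
    have h2 : ‖v 0‖ ≤ ‖v1 0‖ := hh (fun v => v 0) (coord_diff 0).differentiableOn _ (fun w hw => hv1max hw)
    have h3 : L (v 0 / (cc : ℝ)) ≤ bm := by
      apply L_mono
      rw [norm_div, norm_div]
      gcongr
    show rho v ≤ -((1 - κ) * (1 - bm))
    unfold rho
    nlinarith
  -- closedness
  have hclosed : IsClosed {v ∈ Om | hullPred K v} := by
    rw [← isSeqClosed_iff_isClosed]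
    intro x v hx hlim
    have hvS : v ∈ S := hScomp.isClosed.mem_of_tendsto hlim (Eventually.of_forall fun n => hsub (hx n))
    refine ⟨hSΩ hvS, ?_⟩
    intro f hf c hc
    have hcont : ContinuousAt f v := (hf.differentiableAt (Om_open.mem_nhds (hSΩ hvS))).continuousAt
    have h1 : Tendsto (fun n => ‖f (x n)‖) atTop (𝓝 ‖f v‖) := (hcont.tendsto.comp hlim).norm
    exact le_of_tendsto h1 (Eventually.of_forall fun n => (hx n).2 f hf c hc)
  exact hScomp.of_isClosed_subset hclosed hsub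

end Pool.Agent.H788R3.Sq
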