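import Mathlib

set_option autoImplicit false
open MeasureTheory Set Metric Complex Filter Topology

namespace Pool.Agent.H788R3.Sq

variable {V : Type} [NormedAddCommGroup V] [NormedSpace ℂ V] [CompleteSpace V]

/-- Cauchy estimate -/
theorem cauchy_est {f : ℂ → V} {c : ℂ} {r C : ℝ} (hr : 0 < r)
    (hd : ∀ z ∈ closedBall c r, DifferentiableAt ℂ f z) (hb : ∀ z ∈ closedBall c r, ‖f z‖ ≤ C) :
    ‖deriv f c‖ ≤ C / r := by
  apply Complex.norm_deriv_le_of_forall_mem_sphere_norm_le hr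
  · constructor
    · intro z hz
      exact (hd z (ball_subset_closedBall hz)).differentiableWithinAt
    · rw [closure_ball _ hr.ne']
      intro z hz
      exact (hd z hz).continuousAt.continuousWithinAt
  · intro z hz
    exact hb z (sphere_subset_closedBall hz)

/-- two point estimate for the derivative at the centre -/
theorem two_point {g : ℂ → V} (hd : DifferentiableOn ℂ g (ball 0 1)) (hb : ∀ z ∈ ball (0:ℂ) 1, ‖g z‖ ≤ 2)
    {h η : ℝ} (h0 : 0 < h) (h1 : h ≤ 1/2) (hp : ‖g h‖ ≤ η) (hm : ‖g (-h)‖ ≤ η) :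
    ‖deriv g 0‖ ≤ η / h + 128 * h := by
  have hdat : ∀ z ∈ ball (0:ℂ) 1, DifferentiableAt ℂ g z := fun z hz => hd.differentiableAt (isOpen_ball.mem_nhds hz)
  have hstep1 : ∀ z ∈ ball (0:ℂ) (3/4), ‖deriv g z‖ ≤ 16 := by
    intro z hz
    have hz' : ‖z‖ < 3/4 := by simpa using hz
    have hsub : closedBall z (1/8) ⊆ ball (0:ℂ) 1 := by
      intro w hw
      have hw' : ‖w - z‖ ≤ 1/8 := by simpa [dist_eq_norm] using hw
      have : ‖w‖ < 1 := by
        calc ‖w‖ = ‖(w - z) + z‖ := by simp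
          _ ≤ ‖w - z‖ + ‖z‖ := norm_add_le _ _
          _ < 1 := by linarith
      simpa using this
    have := cauchy_est (f := g) (c := z) (r := 1/8) (C := 2) (by norm_num) (fun w hw => hdat w (hsub hw))
      (fun w hw => hb w (hsub hw))
    linarith
  have hd1 : DifferentiableOn ℂ (deriv g) (ball 0 1) := hd.deriv isOpen_ball
  have hstep2 : ∀ z ∈ closedBall (0:ℂ) (1/2), ‖deriv (deriv g) z‖ ≤ 128 := by
    intro z hz
    have hz' : ‖z‖ ≤ 1/2 := by simpa using hz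
    have hsub : closedBall z (1/8) ⊆ ball (0:ℂ) (3/4) := by
      intro w hw
      have hw' : ‖w - z‖ ≤ 1/8 := by simpa [dist_eq_norm] using hw
      have : ‖w‖ < 3/4 := by
        calc ‖w‖ = ‖(w - z) + z‖ := by simp
          _ ≤ ‖w - z‖ + ‖z‖ := norm_add_le _ _
          _ < 3/4 := by linarith
      simpa using this
    have := cauchy_est (f := deriv g) (c := z) (r := 1/8) (C := 16) (by norm_num)
      (fun w hw => hd1.differentiableAt (isOpen_ball.mem_nhds (ball_subset_ball (by norm_num) (hsub hw))))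
      (fun w hw => hstep1 w (hsub hw))
    linarith
  have hhalf : closedBall (0:ℂ) (1/2) ⊆ ball 0 1 := closedBall_subset_ball (by norm_num)
  have hstep3 : ∀ z ∈ closedBall (0:ℂ) (1/2), ‖deriv g z - deriv g 0‖ ≤ 128 * ‖z‖ := by
    intro z hz
    have := Convex.norm_image_sub_le_of_norm_deriv_le (f := deriv g) (s := closedBall (0:ℂ) (1/2)) (C := 128)
      (x := 0) (y := z) (fun w hw => hd1.differentiableAt (isOpen_ball.mem_nhds (hhalf hw))) hstep2
      (convex_closedBall _ _) (by simp) hz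
    simpa using this
  set D := deriv g 0 with hD
  have hstep4 : ‖(g h - (h:ℂ) • D) - (g (-h) - (-h:ℂ) • D)‖ ≤ 128 * h * (2 * h) := by
    have hsub : closedBall (0:ℂ) h ⊆ closedBall (0:ℂ) (1/2) := closedBall_subset_closedBall h1
    have hderiv : ∀ w ∈ closedBall (0:ℂ) h, HasDerivAt (fun w => g w - w • D) (deriv g w - D) w := by
      intro w hw
      have h1 := (hdat w (hhalf (hsub hw))).hasDerivAt
      have h2 : HasDerivAt (fun w : ℂ => w • D) ((1:ℂ) • D) w := (hasDerivAt_id w).smul_const D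
      rw [one_smul] at h2
      exact h1.sub h2
    have := Convex.norm_image_sub_le_of_norm_deriv_le (f := fun w => g w - w • D) (s := closedBall (0:ℂ) h) (C := 128 * h)
      (x := (-h:ℂ)) (y := (h:ℂ)) (fun w hw => (hderiv w hw).differentiableAt)
      (fun w hw => by
        rw [(hderiv w hw).deriv]
        have hw' : ‖w‖ ≤ h := by simpa using hw
        calc ‖deriv g w - D‖ ≤ 128 * ‖w‖ := hstep3 w (hsub hw)
          _ ≤ 128 * h := by gcongr)
      (convex_closedBall _ _) (by simp [abs_of_pos h0]) (by simp [abs_of_pos h0])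
    refine this.trans (le_of_eq ?_)
    congr 1
    rw [sub_neg_eq_add, ← two_mul]
    simp [abs_of_pos h0]
  have h5 : (2 * h : ℂ) • D = (g h - g (-h)) - ((g h - (h:ℂ) • D) - (g (-h) - (-h:ℂ) • D)) := by
    rw [two_mul, add_smul, neg_smul]
    abel
  have h6 : 2 * h * ‖D‖ ≤ 2 * η + 256 * h ^ 2 := by
    have h7 : ‖(2 * h : ℂ) • D‖ = 2 * h * ‖D‖ := by
      rw [norm_smul]
      congr 1
      simp [abs_of_pos h0]
    rw [← h7, h5]
    calc ‖(g h - g (-h)) - ((g h - (h:ℂ) • D) - (g (-h) - (-h:ℂ) • D))‖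
        ≤ ‖g h - g (-h)‖ + ‖(g h - (h:ℂ) • D) - (g (-h) - (-h:ℂ) • D)‖ := norm_sub_le _ _
      _ ≤ (‖g h‖ + ‖g (-h)‖) + 128 * h * (2 * h) := add_le_add (norm_sub_le _ _) hstep4
      _ ≤ _ := by nlinarith
  have h8 : ‖D‖ ≤ (2 * η + 256 * h ^ 2) / (2 * h) := by
    rw [le_div_iff₀ (by positivity)]
    linarith
  calc ‖D‖ ≤ (2 * η + 256 * h ^ 2) / (2 * h) := h8
    _ = η / h + 128 * h := by field_simp; ring

/-- bounded holomorphic functions on the local model have a small tangential derivative -/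
theorem main1 {F : ℂ → ℂ → V} {ψ : ℂ → ℝ} {A R : ℝ} (hR : 2 ≤ R)
    (hA : 2 * Real.log (R + 1) * R ^ 2 ≤ A)
    (b1 : ∀ ζ : ℂ, ‖ζ‖ ≤ 1 → ψ ζ ≤ 2 * A + 2)
    (b2 : ψ (1 / R : ℝ) ≤ A + 1) (b2' : ψ (-(1 / R : ℝ)) ≤ A + 1)
    (b4 : ∀ ζ : ℂ, ‖ζ‖ ≤ R → ψ ζ ≤ 2 * A + 1 + 2 * Real.log (R + 1))
    (h1 : ∀ ω ζ : ℂ, ‖ζ‖ < R → ψ ζ + 1 < ω.re → DifferentiableAt ℂ (fun ζ => F ω ζ) ζ)
    (h2 : ∀ ω ζ : ℂ, ‖ζ‖ < R → ψ ζ + 1 < ω.re → DifferentiableAt ℂ (fun ω => F ω ζ) ω)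
    (hb : ∀ ω ζ : ℂ, ‖ζ‖ < R → ψ ζ + 1 < ω.re → ‖F ω ζ‖ ≤ 1) :
    ‖deriv (fun ζ => F (2 * A + 4 : ℝ) ζ) 0‖ ≤ 131 / R := by
  have hR0 : 0 < R := by linarith
  have hlog : 0 ≤ Real.log (R + 1) := Real.log_nonneg (by linarith)
  set s : ℝ := 2 * Real.log (R + 1) with hs
  have hs0 : 0 ≤ s := by positivity
  have hlogpos : 0 < Real.log (R + 1) := Real.log_pos (by linarith)
  have hspos : 0 < s := by positivity
  have hApos : 0 < A := lt_of_lt_of_le (by positivity) hA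
  set f1 : ℂ → V := fun ζ => F (2 * A + 4 : ℝ) ζ with hf1
  set f2 : ℂ → V := fun ζ => F (2 * A + 4 + s : ℝ) ζ with hf2
  have hf1d : ∀ ζ : ℂ, ‖ζ‖ ≤ 1 → DifferentiableAt ℂ f1 ζ := by
    intro ζ hζ
    apply h1 _ _ (by linarith)
    have := b1 ζ hζ
    rw [Complex.ofReal_re]
    linarith
  have hf1b : ∀ ζ : ℂ, ‖ζ‖ ≤ 1 → ‖f1 ζ‖ ≤ 1 := by
    intro ζ hζ
    apply hb _ _ (by linarith)
    have := b1 ζ hζ
    rw [Complex.ofReal_re]
    linarith
  have hf2d : ∀ ζ : ℂ, ‖ζ‖ < R → DifferentiableAt ℂ f2 ζ := by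
    intro ζ hζ
    apply h1 _ _ hζ
    have := b4 ζ hζ.le
    rw [Complex.ofReal_re]
    linarith
  have hf2b : ∀ ζ : ℂ, ‖ζ‖ < R → ‖f2 ζ‖ ≤ 1 := by
    intro ζ hζ
    apply hb _ _ hζ
    have := b4 ζ hζ.le
    rw [Complex.ofReal_re]
    linarith
  -- far slice
  have hfar : ‖deriv f2 0‖ ≤ 2 / R := by
    have := cauchy_est (f := f2) (c := 0) (r := R / 2) (C := 1) (by positivity)
      (fun z hz => hf2d z (by
        have : ‖z‖ ≤ R / 2 := by simpa using hz
        linarith))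
      (fun z hz => hf2b z (by
        have : ‖z‖ ≤ R / 2 := by simpa using hz
        linarith))
    calc ‖deriv f2 0‖ ≤ 1 / (R / 2) := this
      _ = 2 / R := by field_simp
  -- holes
  have hole : ∀ ζ : ℂ, ‖ζ‖ < R → ψ ζ ≤ A + 1 → ‖f2 ζ - f1 ζ‖ ≤ s / A := by
    intro ζ hζ hψ
    have hd : ∀ ω : ℂ, A + 2 < ω.re → DifferentiableAt ℂ (fun ω => F ω ζ) ω := by
      intro ω hω
      exact h2 ω ζ hζ (by linarith)
    have hbb : ∀ ω : ℂ, A + 2 < ω.re → ‖F ω ζ‖ ≤ 1 := by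
      intro ω hω
      exact hb ω ζ hζ (by linarith)
    have hder : ∀ ω ∈ {ω : ℂ | 2 * A + 4 ≤ ω.re}, ‖deriv (fun ω => F ω ζ) ω‖ ≤ 1 / A := by
      intro ω hω
      have hω : 2 * A + 4 ≤ ω.re := hω
      have hre : ∀ z ∈ closedBall ω A, A + 2 < z.re := by
        intro z hz
        have h3 : ‖z - ω‖ ≤ A := by simpa [dist_eq_norm] using hz
        have h4 := (Complex.abs_re_le_norm (z - ω)).trans h3
        rw [Complex.sub_re] at h4
        have := (abs_le.mp h4).1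
        linarith
      exact cauchy_est hApos (fun z hz => hd z (hre z hz)) (fun z hz => hbb z (hre z hz))
    have hconv : Convex ℝ {ω : ℂ | 2 * A + 4 ≤ ω.re} := convex_halfSpace_re_ge _
    have := hconv.norm_image_sub_le_of_norm_deriv_le (f := fun ω => F ω ζ) (C := 1 / A)
      (x := ((2 * A + 4 : ℝ) : ℂ)) (y := ((2 * A + 4 + s : ℝ) : ℂ))
      (fun ω hω => hd ω (by
        have hω : 2 * A + 4 ≤ ω.re := hω
        linarith)) hder
      (by
        show 2 * A + 4 ≤ (((2 * A + 4 : ℝ) : ℂ)).re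
        rw [Complex.ofReal_re])
      (by
        show 2 * A + 4 ≤ (((2 * A + 4 + s : ℝ) : ℂ)).re
        rw [Complex.ofReal_re]
        linarith)
    have h5 : ‖((2 * A + 4 + s : ℝ) : ℂ) - ((2 * A + 4 : ℝ) : ℂ)‖ = s := by
      rw [← Complex.ofReal_sub, Complex.norm_real, Real.norm_of_nonneg (by linarith)]
      ring
    rw [h5] at this
    calc ‖f2 ζ - f1 ζ‖ ≤ 1 / A * s := this
      _ = s / A := by ring
  have hRinv : (1 / R : ℝ) ≤ 1 / 2 := one_div_le_one_div_of_le (by norm_num) hR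
  have hRinv0 : 0 < 1 / R := by positivity
  have hnorm : ‖((1 / R : ℝ) : ℂ)‖ = 1 / R := by
    rw [Complex.norm_real, Real.norm_of_nonneg hRinv0.le]
  have htp := two_point (g := fun ζ => f2 ζ - f1 ζ) (h := 1 / R) (η := s / A)
    (fun z hz => by
      have hz' : ‖z‖ < 1 := by simpa using hz
      exact ((hf2d z (by linarith)).sub (hf1d z hz'.le)).differentiableWithinAt)
    (fun z hz => by
      have hz' : ‖z‖ < 1 := by simpa using hz
      calc ‖f2 z - f1 z‖ ≤ ‖f2 z‖ + ‖f1 z‖ := norm_sub_le _ _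
        _ ≤ 1 + 1 := add_le_add (hf2b z (by linarith)) (hf1b z hz'.le)
        _ = 2 := by norm_num)
    hRinv0 hRinv
    (hole _ (by rw [hnorm]; linarith) b2)
    (hole _ (by rw [norm_neg, hnorm]; linarith) b2')
  have hsub : deriv (fun ζ => f2 ζ - f1 ζ) 0 = deriv f2 0 - deriv f1 0 :=
    deriv_fun_sub (hf2d 0 (by simpa using hR0)) (hf1d 0 (by simp))
  rw [hsub] at htp
  have h6 : s / A / (1 / R) ≤ 1 / R := by
    have h7 : s / A ≤ 1 / R ^ 2 := by
      rw [div_le_div_iff₀ hApos (by positivity)]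
      linarith
    calc s / A / (1 / R) = s / A * R := by field_simp
      _ ≤ 1 / R ^ 2 * R := by gcongr
      _ = 1 / R := by field_simp
  have h8 : deriv f1 0 = deriv f2 0 - (deriv f2 0 - deriv f1 0) := by abel
  calc ‖deriv f1 0‖ = ‖deriv f2 0 - (deriv f2 0 - deriv f1 0)‖ := by rw [← h8]
    _ ≤ ‖deriv f2 0‖ + ‖deriv f2 0 - deriv f1 0‖ := norm_sub_le _ _
    _ ≤ 2 / R + (1 / R + 128 * (1 / R)) := by linarith
    _ = 131 / R := by ring

end Pool.Agent.H788R3.Sq
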