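import Pool.Agent.H788R3.Sq.G

set_option autoImplicit false
open MeasureTheory Set Metric Complex Filter Topology

namespace Pool.Agent.H788R3.Sq

theorem pow_le_exp_L {ξ : ℂ} {p : ℕ} {s : ℝ} (hp : (p:ℝ) ≤ s) : ‖ξ‖ ^ p ≤ Real.exp (s * L ξ) := by
  rcases eq_or_ne ξ 0 with h0 | h0
  · rw [h0, L_zero, mul_zero, Real.exp_zero, norm_zero]
    rcases Nat.eq_zero_or_pos p with hp0 | hp0
    · rw [hp0, pow_zero]
    · rw [zero_pow hp0.ne']
      exact zero_le_one
  · have hpos : 0 < ‖ξ‖ := norm_pos_iff.mpr h0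
    have h7 : ‖ξ‖ ^ p = Real.exp (p * Real.log ‖ξ‖) := by
      rw [mul_comm, Real.exp_mul, Real.exp_log hpos, Real.rpow_natCast]
    rw [h7]
    apply Real.exp_le_exp.mpr
    have h1 := log_le_L h0
    have h2 := L_nonneg ξ
    have h3 : (0:ℝ) ≤ p := Nat.cast_nonneg p
    nlinarith

/-- Schwarz type estimate for discs in the domain `|w| exp(φ(z)) ≤ 1` -/
theorem main2 {g1 g2 : ℂ → ℂ} (hg1 : DifferentiableOn ℂ g1 (ball 0 1)) (hg2 : DifferentiableOn ℂ g2 (ball 0 1))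
    {a : ℂ} (ha : g1 0 = a) (hw : g2 0 ≠ 0) {P φ : ℂ → ℝ} (hP : Appr P) {ε d : ℝ} (hε : 0 < ε) (hd : 0 < d)
    (hφ : ∀ lam ∈ ball (0:ℂ) 1, P (g1 lam) + ε * L ((g1 lam - a) / d) ≤ φ (g1 lam))
    (hb : ∀ lam ∈ ball (0:ℂ) 1, ‖g2 lam‖ * Real.exp (φ (g1 lam)) ≤ 1)
    (hD : deriv g1 0 ≠ 0) :
    ε * Real.log (‖deriv g1 0‖ / d) ≤ -(Real.log ‖g2 0‖ + P a) := by
  set D := deriv g1 0 with hDdef
  have hDpos : 0 < ‖D‖ := norm_pos_iff.mpr hD
  have hwpos : 0 < ‖g2 0‖ := norm_pos_iff.mpr hw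
  -- the quotient function
  set q : ℂ → ℂ := fun lam => dslope g1 0 lam / d with hq
  have hqd : DifferentiableOn ℂ q (ball 0 1) := by
    have : DifferentiableOn ℂ (dslope g1 0) (ball 0 1) :=
      (Complex.differentiableOn_dslope (ball_mem_nhds 0 one_pos)).mpr hg1
    exact this.div_const _
  have hq0 : ‖q 0‖ = ‖D‖ / d := by
    rw [hq]
    simp only [dslope_same, norm_div, Complex.norm_real, Real.norm_of_nonneg hd.le]
    rfl
  have hqn : ∀ lam : ℂ, lam ≠ 0 → ‖q lam‖ = ‖(g1 lam - a) / d‖ / ‖lam‖ := by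
    intro lam hlam
    rw [hq]
    simp only
    rw [dslope_of_ne _ hlam, slope_def_field, ha, sub_zero, norm_div, norm_div, norm_div]
    ring
  -- basic inequality for each r, n
  have main : ∀ n p : ℕ, (p:ℝ) ≤ n * ε → ∀ f : ℂ → ℂ, Differentiable ℂ f →
      (∀ z, ‖f z‖ ≤ Real.exp (n * P z)) → ∀ r : ℝ, 0 < r → r < 1 →
      ‖g2 0‖ ^ n * ‖f a‖ * (‖D‖ / d) ^ p ≤ (1 / r) ^ p := by
    intro n p hp f hf hfb r hr0 hr1
    set Q : ℂ → ℂ := fun lam => g2 lam ^ n * f (g1 lam) * q lam ^ p with hQ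
    have hsub : closedBall (0:ℂ) r ⊆ ball 0 1 := closedBall_subset_ball hr1
    have hQd : DifferentiableOn ℂ Q (ball 0 1) := by
      have h1 : DifferentiableOn ℂ (fun lam => f (g1 lam)) (ball 0 1) :=
        hf.comp_differentiableOn hg1
      exact ((hg2.pow n).mul h1).mul (hqd.pow p)
    have hbd : ∀ z ∈ frontier (ball (0:ℂ) r), ‖Q z‖ ≤ (1 / r) ^ p := by
      intro z hz
      rw [frontier_ball _ hr0.ne'] at hz
      have hz' : ‖z‖ = r := by simpa using hz
      have hzb : z ∈ ball (0:ℂ) 1 := hsub (by simp [hz'])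
      have hz0 : z ≠ 0 := norm_pos_iff.mp (by rw [hz']; exact hr0)
      have e1 : ‖Q z‖ = ‖g2 z‖ ^ n * ‖f (g1 z)‖ * (‖(g1 z - a) / d‖ / r) ^ p := by
        rw [hQ]
        simp only [norm_mul, norm_pow]
        rw [hqn z hz0, hz']
      rw [e1, div_pow, one_div, inv_pow, ← mul_div_assoc, div_eq_mul_inv]
      apply mul_le_of_le_one_left (by positivity)
      have h1 : ‖(g1 z - a) / d‖ ^ p ≤ Real.exp (n * ε * L ((g1 z - a) / d)) := pow_le_exp_L hp
      have h2 := hfb (g1 z)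
      have h3 : ‖g2 z‖ ^ n ≤ Real.exp (-(n * φ (g1 z))) := by
        have h4 : ‖g2 z‖ ≤ Real.exp (-(φ (g1 z))) := by
          rw [Real.exp_neg, ← one_div, le_div_iff₀ (Real.exp_pos _)]
          exact hb z hzb
        calc ‖g2 z‖ ^ n ≤ Real.exp (-(φ (g1 z))) ^ n := by gcongr
          _ = Real.exp (-(n * φ (g1 z))) := by rw [← Real.exp_nat_mul]; congr 1; ring
      calc ‖g2 z‖ ^ n * ‖f (g1 z)‖ * ‖(g1 z - a) / d‖ ^ p
          ≤ Real.exp (-(n * φ (g1 z))) * Real.exp (n * P (g1 z)) * Real.exp (n * ε * L ((g1 z - a) / d)) := by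
            gcongr
        _ = Real.exp (-(n * φ (g1 z)) + n * P (g1 z) + n * ε * L ((g1 z - a) / d)) := by
            rw [← Real.exp_add, ← Real.exp_add]
        _ ≤ 1 := by
            rw [Real.exp_le_one_iff]
            have h5 := hφ z hzb
            have h6 : (0:ℝ) ≤ n := Nat.cast_nonneg n
            nlinarith
    have hmax := Complex.norm_le_of_forall_mem_frontier_norm_le (U := ball (0:ℂ) r) isBounded_ball
      (f := Q) (C := (1 / r) ^ p) ?_ hbd (z := 0) (subset_closure (by simp [hr0]))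
    · have e2 : ‖Q 0‖ = ‖g2 0‖ ^ n * ‖f a‖ * (‖D‖ / d) ^ p := by
        rw [hQ]
        simp only [norm_mul, norm_pow]
        rw [hq0, ha]
      rw [← e2]
      exact hmax
    · constructor
      · exact hQd.mono (ball_subset_closedBall.trans hsub)
      · rw [closure_ball _ hr0.ne']
        exact (hQd.mono hsub).continuousOn
  have main' : ∀ n p : ℕ, (p:ℝ) ≤ n * ε → ∀ f : ℂ → ℂ, Differentiable ℂ f →
      (∀ z, ‖f z‖ ≤ Real.exp (n * P z)) →
      ‖g2 0‖ ^ n * ‖f a‖ * (‖D‖ / d) ^ p ≤ 1 := by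
    intro n p hp f hf hfb
    have hlim : Tendsto (fun r : ℝ => (1 / r) ^ p) (𝓝[<] 1) (𝓝 ((1 / 1) ^ p)) := by
      have : ContinuousAt (fun r : ℝ => (1 / r) ^ p) 1 := by
        apply ContinuousAt.pow
        exact continuousAt_const.div continuousAt_id one_ne_zero
      exact this.tendsto.mono_left nhdsWithin_le_nhds
    have h1 : (1 / 1 : ℝ) ^ p = 1 := by simp
    rw [h1] at hlim
    apply ge_of_tendsto hlim
    have : Ioo (0:ℝ) 1 ∈ 𝓝[<] (1:ℝ) := Ioo_mem_nhdsLT one_pos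
    filter_upwards [this] with r hr
    exact main n p hp f hf hfb r hr.1 hr.2
  -- pass to the limit
  by_contra hcon
  push Not at hcon
  set X := Real.log (‖D‖ / d) with hX
  set Y := Real.log ‖g2 0‖ + P a with hY
  set η := (ε * X + Y) / 2 with hη
  have hη0 : 0 < η := by rw [hη]; linarith
  obtain ⟨n0, hn0⟩ := hP a η hη0
  obtain ⟨n1, hn1⟩ := exists_nat_gt (|X| / η)
  set n := max n0 (max n1 1) with hn
  have hn0' : n0 ≤ n := le_max_left _ _
  have hn1' : n1 ≤ n := (le_max_left _ _).trans (le_max_right _ _)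
  obtain ⟨f, hf, hfb, hfa⟩ := hn0 n hn0'
  set p : ℕ := ⌊(n:ℝ) * ε⌋₊ with hp
  have hnε : 0 ≤ (n:ℝ) * ε := by positivity
  have hp1 : (p:ℝ) ≤ n * ε := Nat.floor_le hnε
  have hp2 : (n:ℝ) * ε < p + 1 := Nat.lt_floor_add_one _
  have h1 := main' n p hp1 f hf hfb
  have hfapos : 0 < ‖f a‖ := (Real.exp_pos _).trans_le hfa
  have hDd : 0 < ‖D‖ / d := by positivity
  have h2 : n * Real.log ‖g2 0‖ + Real.log ‖f a‖ + p * X ≤ 0 := by
    have := Real.log_le_log (by positivity) h1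
    rw [Real.log_one, Real.log_mul (by positivity) (by positivity), Real.log_mul (by positivity) (by positivity),
      Real.log_pow, Real.log_pow] at this
    exact this
  have h3 : n * (P a - η) ≤ Real.log ‖f a‖ := by
    rw [Real.le_log_iff_exp_le hfapos]
    exact hfa
  have h4 : n * ε * X - |X| ≤ p * X := by
    rcases le_total 0 X with h | h
    · rw [abs_of_nonneg h]
      nlinarith
    · rw [abs_of_nonpos h]
      nlinarith
  have h5 : |X| < n * η := by
    have : (n1:ℝ) ≤ n := by exact_mod_cast hn1'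
    have h6 : |X| / η < n := hn1.trans_le this
    rwa [div_lt_iff₀ hη0] at h6
  have h7 : (n:ℝ) * (Y + ε * X - η) - |X| ≤ 0 := by
    rw [hY]
    nlinarith
  have h8 : Y + ε * X = 2 * η := by rw [hη]; ring
  rw [h8] at h7
  nlinarith

end Pool.Agent.H788R3.Sq
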