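import Pool.Agent.H788R3.Sq.Hull
import Pool.Agent.H788R3.Sq.Main1
import Pool.Agent.H788R3.Sq.Main2
import Pool.Agent.Helper459.KN

set_option autoImplicit false
open MeasureTheory Set Metric Complex Filter Topology

namespace Pool.Agent.H788R3.Sq

/-- log regime: the term is pluriharmonic -/
theorem L_harm {a p : ℂ} {t r : ℝ} (ht : 0 < t) (h : t + r ≤ ‖a - p‖) :
    ∃ H : ℂ → ℂ, DifferentiableOn ℂ H (ball a r) ∧ ∀ z ∈ ball a r, L ((z - p) / (t : ℝ)) = (H z).re := by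
  rcases le_or_gt r 0 with hr | hr
  · refine ⟨fun _ => 0, by fun_prop, fun z hz => ?_⟩
    rw [ball_eq_empty.mpr hr] at hz
    exact absurd hz (notMem_empty z)
  have hap : 0 < ‖a - p‖ := by linarith
  have hap0 : a - p ≠ 0 := norm_pos_iff.mp hap
  have hslit : ∀ z ∈ ball a r, 1 + (z - a) / (a - p) ∈ slitPlane := by
    intro z hz
    left
    have hz' : ‖z - a‖ < r := by simpa [dist_eq_norm] using hz
    have h1 : ‖(z - a) / (a - p)‖ < 1 := by
      rw [norm_div, div_lt_one hap]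
      linarith
    have h2 := (abs_le.mp ((Complex.abs_re_le_norm ((z - a) / (a - p))).trans h1.le)).1
    have h3 : -1 < ((z - a) / (a - p)).re := by
      have := Complex.abs_re_le_norm ((z - a) / (a - p))
      have h4 := (abs_lt.mp (this.trans_lt h1)).1
      exact h4
    rw [Complex.add_re, Complex.one_re]
    linarith
  refine ⟨fun z => Complex.log (1 + (z - a) / (a - p)) + ((Real.log (‖a - p‖ / t) + G 0 : ℝ) : ℂ), ?_, ?_⟩
  · intro z hz
    have h1 : DifferentiableAt ℂ (fun z => 1 + (z - a) / (a - p)) z := by fun_prop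
    exact ((h1.clog (hslit z hz)).add_const _).differentiableWithinAt
  · intro z hz
    have hz' : ‖z - a‖ < r := by simpa [dist_eq_norm] using hz
    have hzp : t ≤ ‖z - p‖ := by
      have h1 : ‖a - p‖ ≤ ‖z - a‖ + ‖z - p‖ := by
        calc ‖a - p‖ = ‖-(z - a) + (z - p)‖ := by congr 1; ring
          _ ≤ ‖-(z - a)‖ + ‖z - p‖ := norm_add_le _ _
          _ = _ := by rw [norm_neg]
      linarith
    have hnorm : ‖(z - p) / (t : ℝ)‖ = ‖z - p‖ / t := by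
      rw [norm_div, Complex.norm_real, Real.norm_of_nonneg ht.le]
    rw [L_big (by rw [hnorm, le_div_iff₀ ht]; linarith), hnorm]
    have h5 : (1 + (z - a) / (a - p)) = (z - p) / (a - p) := by
      field_simp
      ring
    rw [Complex.add_re, Complex.ofReal_re, h5, Complex.log_re, norm_div]
    have hzp0 : 0 < ‖z - p‖ := ht.trans_le hzp
    rw [Real.log_div hzp0.ne' hap.ne', Real.log_div hap.ne' ht.ne', Real.log_div hzp0.ne' ht.ne']
    ring

theorem ar_pos (k : ℕ) : 0 < ar k := by unfold ar; positivity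

theorem ar_le_one (k : ℕ) : ar k ≤ 1 := by
  unfold ar
  exact pow_le_one₀ (by norm_num) (by norm_num)

theorem ar_diff {j k : ℕ} (hjk : j < k) : (1 / 2 : ℝ) ^ (j + 1) ≤ ar j - ar k := by
  unfold ar
  have h1 : ((1:ℝ) / 2) ^ k ≤ (1 / 2) ^ (j + 1) :=
    pow_le_pow_of_le_one (by norm_num) (by norm_num) hjk
  have h2 : ((1:ℝ) / 2) ^ (j + 1) = (1 / 2) ^ j * (1 / 2) := by rw [pow_succ]
  linarith

theorem psi_harm {j k : ℕ} (hjk : j < k) :
    ∃ H : ℂ → ℂ, DifferentiableOn ℂ H (ball ((ar k : ℝ) : ℂ) (RR k * dd k)) ∧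
      ∀ z ∈ ball ((ar k : ℝ) : ℂ) (RR k * dd k),
        psi (RR j) ((z - (ar j : ℝ)) / (dd j : ℝ)) = (H z).re := by
  have hR := RR_ge j
  have hd := dd_pos j
  have ht := tt_pos (RR j)
  have ht1 := tt_le hR
  have h0 := one_div_pos' hR
  have h12 := one_div_le_half hR
  have hdist := ar_diff hjk
  have hRd : RR k * dd k ≤ (1 / 2) ^ (j + 3) := by
    rw [RR_dd]
    exact pow_le_pow_of_le_one (by norm_num) (by norm_num) (by omega)
  have hdj := dd_le j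
  set q : ℝ := (1 / 2) ^ (j + 3) with hq
  have hq1 : ((1:ℝ) / 2) ^ (j + 1) = 4 * q := by rw [hq]; ring
  have hq0 : 0 < q := by rw [hq]; positivity
  have hnorm : ∀ s : ℝ, ‖((ar k : ℝ) : ℂ) - ((ar j : ℝ) + (s : ℝ))‖ = |ar k - (ar j + s)| := by
    intro s
    rw [← Complex.ofReal_add, ← Complex.ofReal_sub, Complex.norm_real, Real.norm_eq_abs]
  have hgen : ∀ s : ℝ, |s| ≤ dd j * (1 / 2) → 3 * q ≤ ‖((ar k : ℝ) : ℂ) - ((ar j : ℝ) + (s : ℝ))‖ := by
    intro s hs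
    rw [hnorm]
    have h1 := (abs_le.mp hs).1
    have h2 : 3 * q ≤ -(ar k - (ar j + s)) := by linarith
    exact h2.trans (neg_le_abs _)
  obtain ⟨H1, hH1, e1⟩ := L_harm (a := ((ar k : ℝ) : ℂ)) (p := ((ar j : ℝ) : ℂ)) (t := dd j) (r := RR k * dd k) hd (by
    have := hgen 0 (by rw [abs_zero]; positivity)
    rw [Complex.ofReal_zero, add_zero] at this
    linarith)
  have hdt : dd j * tt (RR j) ≤ q := by nlinarith
  have habs : |dd j * (1 / RR j)| ≤ dd j * (1 / 2) := by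
    rw [abs_of_pos (by positivity)]
    gcongr
  have habs' : |dd j * (-(1 / RR j))| ≤ dd j * (1 / 2) := by
    rw [mul_neg, abs_neg]
    exact habs
  obtain ⟨H2, hH2, e2⟩ := L_harm (a := ((ar k : ℝ) : ℂ)) (p := ((ar j : ℝ) : ℂ) + (dd j * (1 / RR j) : ℝ))
    (t := dd j * tt (RR j)) (r := RR k * dd k) (by positivity) (by
    have := hgen (dd j * (1 / RR j)) habs
    linarith)
  obtain ⟨H3, hH3, e3⟩ := L_harm (a := ((ar k : ℝ) : ℂ)) (p := ((ar j : ℝ) : ℂ) + (dd j * (-(1 / RR j)) : ℝ))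
    (t := dd j * tt (RR j)) (r := RR k * dd k) (by positivity) (by
    have := hgen (dd j * (-(1 / RR j))) habs'
    linarith)
  refine ⟨fun z => H1 z + ((mm (RR j) : ℂ) * H2 z + (mm (RR j) : ℂ) * H3 z), ?_, ?_⟩
  · exact hH1.add ((hH2.const_mul _).add (hH3.const_mul _))
  · intro z hz
    rw [psi_scaled (RR j) hd, e1 z hz, e2 z hz, e3 z hz, Complex.add_re, Complex.add_re,
      Complex.re_ofReal_mul, Complex.re_ofReal_mul]

theorem sum_harm (k : ℕ) :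
    ∃ H : ℂ → ℂ, DifferentiableOn ℂ H (ball ((ar k : ℝ) : ℂ) (RR k * dd k)) ∧
      ∀ z ∈ ball ((ar k : ℝ) : ℂ) (RR k * dd k),
        ∑ j ∈ Finset.range k, ee j * psi (RR j) ((z - (ar j : ℝ)) / (dd j : ℝ)) = (H z).re := by
  have h : ∀ j : ℕ, ∃ H : ℂ → ℂ, j < k → (DifferentiableOn ℂ H (ball ((ar k : ℝ) : ℂ) (RR k * dd k)) ∧
      ∀ z ∈ ball ((ar k : ℝ) : ℂ) (RR k * dd k),
        psi (RR j) ((z - (ar j : ℝ)) / (dd j : ℝ)) = (H z).re) := by
    intro j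
    by_cases hjk : j < k
    · obtain ⟨H, h1, h2⟩ := psi_harm hjk
      exact ⟨H, fun _ => ⟨h1, h2⟩⟩
    · exact ⟨fun _ => 0, fun h => absurd h hjk⟩
  choose H hH using h
  refine ⟨fun z => ∑ j ∈ Finset.range k, (ee j : ℂ) * H j z, ?_, ?_⟩
  · apply DifferentiableOn.fun_sum
    intro j hj
    exact ((hH j (Finset.mem_range.mp hj)).1).const_mul _
  · intro z hz
    rw [Complex.re_sum]
    apply Finset.sum_congr rfl
    intro j hj
    rw [(hH j (Finset.mem_range.mp hj)).2 z hz, Complex.re_ofReal_mul]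

theorem ball_small {k : ℕ} {z : ℂ} (hz : z ∈ ball ((ar k : ℝ) : ℂ) (RR k * dd k)) : ‖z‖ ≤ 2 := by
  have h1 : ‖z - (ar k : ℝ)‖ < RR k * dd k := by simpa [dist_eq_norm] using hz
  have h2 : ‖((ar k : ℝ) : ℂ)‖ ≤ 1 := by
    rw [Complex.norm_real, Real.norm_of_nonneg (ar_pos k).le]
    exact ar_le_one k
  have h3 : RR k * dd k ≤ 1 := by
    rw [RR_dd]
    exact pow_le_one₀ (by norm_num) (by norm_num)
  calc ‖z‖ = ‖(z - (ar k : ℝ)) + (ar k : ℝ)‖ := by simp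
    _ ≤ ‖z - (ar k : ℝ)‖ + ‖((ar k : ℝ) : ℂ)‖ := norm_add_le _ _
    _ ≤ 2 := by linarith

theorem small_ok {z : ℂ} (hz : ‖z‖ ≤ 2) : ‖z‖ ≤ Real.exp 3 + 1 := by
  have : (3:ℝ) + 1 ≤ Real.exp 3 := Real.add_one_le_exp 3
  linarith

theorem L_small' {z : ℂ} (hz : ‖z‖ ≤ 2) : L (z / (cc : ℝ)) = 0 := by
  apply L_small
  rw [norm_div, Complex.norm_real, Real.norm_of_nonneg cc_pos.le, div_le_iff₀ cc_pos, cc, ← Real.exp_add]
  norm_num
  have : (1:ℝ) + 1 ≤ Real.exp 1 := Real.add_one_le_exp 1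
  linarith

theorem mem_Om_of {v : E2} (hz : ‖v 0‖ ≤ 2) (hw : ‖v 1‖ < Real.exp (-(phi (v 0)))) : v ∈ Om := by
  show rho v < 0
  unfold rho
  rw [L_small' hz]
  have h1 : ‖v 1‖ * Real.exp (phi (v 0)) < 1 := by
    rw [Real.exp_neg, ← one_div, lt_div_iff₀ (Real.exp_pos _)] at hw
    exact hw
  have h3 : ‖v 1‖ ^ 2 * Real.exp (2 * phi (v 0)) = (‖v 1‖ * Real.exp (phi (v 0))) ^ 2 := by
    rw [mul_pow, ← Real.exp_nat_mul]
    norm_cast
  rw [h3]
  have h4 : 0 ≤ ‖v 1‖ * Real.exp (phi (v 0)) := by positivity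
  nlinarith

/-- upper bound for the potential near the `k`-th block -/
theorem phi_upper {k : ℕ} {H : ℂ → ℂ}
    (hH : ∀ z ∈ ball ((ar k : ℝ) : ℂ) (RR k * dd k),
        ∑ j ∈ Finset.range k, ee j * psi (RR j) ((z - (ar j : ℝ)) / (dd j : ℝ)) = (H z).re)
    {z : ℂ} (hz : z ∈ ball ((ar k : ℝ) : ℂ) (RR k * dd k)) :
    phi z ≤ (H z).re + ee k * (psi (RR k) ((z - (ar k : ℝ)) / (dd k : ℝ)) + 1) := by
  have hz2 := small_ok (ball_small hz)
  rw [phi_split k z, ← hH z hz]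
  have h1 : ∑ j ∈ Finset.range k, ee j * uu j z =
      ∑ j ∈ Finset.range k, ee j * psi (RR j) ((z - (ar j : ℝ)) / (dd j : ℝ)) := by
    apply Finset.sum_congr rfl
    intro j _
    rw [uu_eq hz2]
  rw [h1, uu_eq hz2]
  have := tail_le k z
  linarith

noncomputable def Phi (k : ℕ) (H : ℂ → ℂ) (ω ζ : ℂ) : E2 :=
  WithLp.toLp 2 ![(ar k : ℝ) + (dd k : ℝ) * ζ,
    Complex.exp (-((ee k : ℝ) * ω) - H ((ar k : ℝ) + (dd k : ℝ) * ζ))]

theorem Phi_zero (k : ℕ) (H : ℂ → ℂ) (ω ζ : ℂ) : (Phi k H ω ζ) 0 = (ar k : ℝ) + (dd k : ℝ) * ζ := by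
  simp [Phi]

theorem Phi_one (k : ℕ) (H : ℂ → ℂ) (ω ζ : ℂ) : (Phi k H ω ζ) 1 =
    Complex.exp (-((ee k : ℝ) * ω) - H ((ar k : ℝ) + (dd k : ℝ) * ζ)) := by
  simp [Phi]

theorem mem_blk {k : ℕ} {ζ : ℂ} (hζ : ‖ζ‖ < RR k) :
    ((ar k : ℝ) : ℂ) + (dd k : ℝ) * ζ ∈ ball ((ar k : ℝ) : ℂ) (RR k * dd k) := by
  rw [mem_ball, dist_eq_norm, add_sub_cancel_left, norm_mul, Complex.norm_real,
    Real.norm_of_nonneg (dd_pos k).le]
  have := dd_pos k
  nlinarith

theorem Phi_mem {k : ℕ} {H : ℂ → ℂ}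
    (hH : ∀ z ∈ ball ((ar k : ℝ) : ℂ) (RR k * dd k),
        ∑ j ∈ Finset.range k, ee j * psi (RR j) ((z - (ar j : ℝ)) / (dd j : ℝ)) = (H z).re)
    {ω ζ : ℂ} (hζ : ‖ζ‖ < RR k) (hω : psi (RR k) ζ + 1 < ω.re) : Phi k H ω ζ ∈ Om := by
  have hb := mem_blk hζ
  apply mem_Om_of
  · rw [Phi_zero]
    exact ball_small hb
  · rw [Phi_zero, Phi_one, Complex.norm_exp]
    apply Real.exp_lt_exp.mpr
    have h1 := phi_upper hH hb
    have hd : (dd k : ℂ) ≠ 0 := by exact_mod_cast (dd_pos k).ne'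
    have h2 : (((ar k : ℝ) : ℂ) + (dd k : ℝ) * ζ - (ar k : ℝ)) / (dd k : ℝ) = ζ := by
      rw [add_sub_cancel_left]
      field_simp
    rw [h2] at h1
    have h3 : (-((ee k : ℝ) * ω : ℂ) - H ((ar k : ℝ) + (dd k : ℝ) * ζ)).re =
        -(ee k * ω.re) - (H ((ar k : ℝ) + (dd k : ℝ) * ζ)).re := by
      rw [Complex.sub_re, Complex.neg_re, Complex.re_ofReal_mul]
    rw [h3]
    have h4 := ee_pos k
    have h5 : ee k * (psi (RR k) ζ + 1) < ee k * ω.re := mul_lt_mul_of_pos_left hω h4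
    linarith

/-- coordinates -/
noncomputable def eqv : E2 ≃L[ℂ] ℂ × ℂ :=
  (EuclideanSpace.equiv (Fin 2) ℂ).trans (ContinuousLinearEquiv.piFinTwo ℂ (fun _ => ℂ))

theorem osgoodE {U : Set E2} (hU : IsOpen U) {f : E2 → E2} (hf : DifferentiableOn ℂ f U) (hinj : InjOn f U) :
    IsOpen (f '' U) ∧ ∃ Ψ : E2 → E2, DifferentiableOn ℂ Ψ (f '' U) ∧ ∀ x ∈ U, Ψ (f x) = x := by
  set V : Set (ℂ × ℂ) := eqv.symm ⁻¹' U with hV
  have hVo : IsOpen V := hU.preimage eqv.symm.continuous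
  have hd : DifferentiableOn ℂ (fun y => eqv (f (eqv.symm y))) V := by
    have h1 : DifferentiableOn ℂ (fun y => f (eqv.symm y)) V :=
      hf.comp eqv.symm.differentiable.differentiableOn (fun y hy => hy)
    exact eqv.differentiable.comp_differentiableOn h1
  have hinj' : InjOn (fun y => eqv (f (eqv.symm y))) V := by
    intro x hx y hy hxy
    have h1 : f (eqv.symm x) = f (eqv.symm y) := eqv.injective hxy
    exact eqv.symm.injective (hinj hx hy h1)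
  obtain ⟨h1, Ψ, hΨ, hinv⟩ := Pool.Agent.Helper459.KN.osgood hVo hd hinj'
  have himg : f '' U = eqv ⁻¹' ((fun y => eqv (f (eqv.symm y))) '' V) := by
    ext x
    constructor
    · rintro ⟨u, hu, rfl⟩
      exact ⟨eqv u, by simpa [hV] using hu, by simp⟩
    · rintro ⟨y, hy, hyx⟩
      exact ⟨eqv.symm y, hy, eqv.injective hyx⟩
  refine ⟨?_, fun x => eqv.symm (Ψ (eqv x)), ?_, ?_⟩
  · rw [himg]
    exact h1.preimage eqv.continuous
  · rw [himg]
    have h2 : DifferentiableOn ℂ (fun x => Ψ (eqv x)) (eqv ⁻¹' ((fun y => eqv (f (eqv.symm y))) '' V)) :=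
      hΨ.comp eqv.differentiable.differentiableOn (fun y hy => hy)
    exact eqv.symm.differentiable.comp_differentiableOn h2
  · intro x hx
    have h3 := hinv (eqv x) (by simpa [hV] using hx)
    simp only [ContinuousLinearEquiv.symm_apply_apply] at h3
    simp only [h3, ContinuousLinearEquiv.symm_apply_apply]

end Pool.Agent.H788R3.Sq
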