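import Pool.Agent.H788R3.Sq.Block

set_option autoImplicit false
open MeasureTheory Set Metric Complex Filter Topology

namespace Pool.Agent.H788R3.Sq

noncomputable def RR (k : ℕ) : ℝ := k + 2
noncomputable def ar (k : ℕ) : ℝ := (1 / 2) ^ k
noncomputable def dd (k : ℕ) : ℝ := (1 / 2) ^ (k + 2) / (k + 2)

theorem RR_ge (k : ℕ) : 2 ≤ RR k := by
  unfold RR
  have : (0:ℝ) ≤ k := Nat.cast_nonneg k
  linarith

theorem dd_pos (k : ℕ) : 0 < dd k := by
  unfold dd
  positivity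

theorem RR_dd (k : ℕ) : RR k * dd k = (1 / 2) ^ (k + 2) := by
  unfold RR dd
  field_simp

theorem dd_le (k : ℕ) : dd k ≤ (1 / 2) ^ (k + 3) := by
  have h := RR_dd k
  have h2 := RR_ge k
  have h3 := dd_pos k
  have : 2 * dd k ≤ (1 / 2) ^ (k + 2) := by nlinarith
  have h4 : ((1:ℝ) / 2) ^ (k + 3) = (1 / 2) ^ (k + 2) * (1 / 2) := by rw [pow_succ]
  rw [h4]
  linarith

noncomputable def bump : ContDiffBump (0 : ℂ) :=
  ⟨Real.exp 3 + 1, Real.exp 3 + 2, by positivity, by linarith⟩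

noncomputable def uu (k : ℕ) (z : ℂ) : ℝ := bump z * psi (RR k) ((z - (ar k : ℝ)) / (dd k : ℝ))

theorem psik_contDiff (k n : ℕ) : ContDiff ℝ n (fun z : ℂ => psi (RR k) ((z - (ar k : ℝ)) / (dd k : ℝ))) := by
  have h1 := psi_contDiff (RR k) n
  have h2 : ContDiff ℝ n (fun z : ℂ => (z - (ar k : ℝ)) / (dd k : ℝ)) := by fun_prop
  exact h1.comp h2

theorem uu_contDiff (k n : ℕ) : ContDiff ℝ n (uu k) := by
  have h1 : ContDiff ℝ ((n : ℕ∞) : WithTop ℕ∞) (bump : ℂ → ℝ) := bump.contDiff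
  exact ContDiff.mul h1 (psik_contDiff k n)

theorem uu_support (k : ℕ) : HasCompactSupport (uu k) := by
  have h1 : HasCompactSupport (bump : ℂ → ℝ) := bump.hasCompactSupport
  exact h1.mul_right

theorem exists_MM (k : ℕ) : ∃ M : ℝ, 1 ≤ M ∧ ∀ i ≤ k, ∀ z : ℂ, ‖iteratedFDeriv ℝ i (uu k) z‖ ≤ M := by
  have h : ∀ i : ℕ, ∃ C : ℝ, ∀ z : ℂ, ‖iteratedFDeriv ℝ i (uu k) z‖ ≤ C := by
    intro i
    have hc : Continuous (iteratedFDeriv ℝ i (uu k)) :=
      (uu_contDiff k i).continuous_iteratedFDeriv le_rfl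
    exact ((uu_support k).iteratedFDeriv i).exists_bound_of_continuous hc
  choose C hC using h
  refine ⟨1 + ∑ i ∈ Finset.range (k + 1), |C i|, ?_, ?_⟩
  · have : 0 ≤ ∑ i ∈ Finset.range (k + 1), |C i| := Finset.sum_nonneg (fun _ _ => abs_nonneg _)
    linarith
  · intro i hi z
    have h1 := hC i z
    have h2 : |C i| ≤ ∑ i ∈ Finset.range (k + 1), |C i| :=
      Finset.single_le_sum (f := fun i => |C i|) (fun _ _ => abs_nonneg _) (Finset.mem_range.mpr (by omega))
    linarith [le_abs_self (C i)]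

noncomputable def MM (k : ℕ) : ℝ := (exists_MM k).choose

theorem MM_ge (k : ℕ) : 1 ≤ MM k := (exists_MM k).choose_spec.1

theorem MM_spec (k i : ℕ) (hi : i ≤ k) (z : ℂ) : ‖iteratedFDeriv ℝ i (uu k) z‖ ≤ MM k :=
  (exists_MM k).choose_spec.2 i hi z

noncomputable def ee (k : ℕ) : ℝ := ∏ i ∈ Finset.range (k + 1), 1 / (2 * MM i)

theorem ee_pos (k : ℕ) : 0 < ee k := by
  unfold ee
  apply Finset.prod_pos
  intro i _
  have := MM_ge i
  positivity

theorem ee_succ (k : ℕ) : ee (k + 1) * MM (k + 1) = ee k / 2 := by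
  have := MM_ge (k + 1)
  have h0 : MM (k + 1) ≠ 0 := by linarith
  rw [ee, Finset.prod_range_succ, ← ee]
  field_simp

theorem ee_succ_le (k : ℕ) : ee (k + 1) ≤ ee k / 2 := by
  rw [← ee_succ]
  have := MM_ge (k + 1)
  have := ee_pos (k + 1)
  nlinarith

theorem ee_add_le (k i : ℕ) : ee (k + i) ≤ ee k * (1 / 2) ^ i := by
  induction i with
  | zero => simp
  | succ i ih =>
    have := ee_succ_le (k + i)
    rw [← add_assoc, pow_succ]
    linarith

theorem ee_zero : ee 0 * MM 0 = 1 / 2 := by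
  have := MM_ge 0
  have h0 : MM 0 ≠ 0 := by linarith
  simp only [ee, zero_add, Finset.range_one, Finset.prod_singleton]
  field_simp

theorem ee_zero_le : ee 0 ≤ 1 := by
  have h := ee_zero
  have := MM_ge 0
  have := ee_pos 0
  nlinarith

theorem eeMM_le (k : ℕ) : ee k * MM k ≤ (1 / 2) ^ k := by
  cases k with
  | zero => rw [ee_zero]; norm_num
  | succ k =>
    rw [ee_succ, pow_succ]
    have h1 := ee_add_le 0 k
    rw [zero_add] at h1
    have h2 := ee_zero_le
    have h3 : (0:ℝ) < (1 / 2) ^ k := by positivity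
    nlinarith

theorem summable_geo : Summable (fun k : ℕ => ((1:ℝ) / 2) ^ k) :=
  summable_geometric_of_lt_one (by norm_num) (by norm_num)

theorem uu_nonneg (k : ℕ) (z : ℂ) : 0 ≤ uu k z :=
  mul_nonneg (bump.nonneg) (psi_nonneg (RR_ge k) _)

theorem uu_le (k : ℕ) (z : ℂ) : uu k z ≤ MM k := by
  have := MM_spec k 0 (Nat.zero_le _) z
  rw [norm_iteratedFDeriv_zero, Real.norm_of_nonneg (uu_nonneg k z)] at this
  exact this

theorem term_nonneg (k : ℕ) (z : ℂ) : 0 ≤ ee k * uu k z := mul_nonneg (ee_pos k).le (uu_nonneg k z)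

theorem term_le (k : ℕ) (z : ℂ) : ee k * uu k z ≤ (1 / 2) ^ k :=
  (mul_le_mul_of_nonneg_left (uu_le k z) (ee_pos k).le).trans (eeMM_le k)

theorem term_summable (z : ℂ) : Summable (fun k => ee k * uu k z) :=
  Summable.of_nonneg_of_le (fun k => term_nonneg k z) (fun k => term_le k z) summable_geo

noncomputable def phi (z : ℂ) : ℝ := ∑' k, ee k * uu k z

theorem phi_nonneg (z : ℂ) : 0 ≤ phi z := tsum_nonneg (fun k => term_nonneg k z)

theorem phi_contDiff (n : ℕ) : ContDiff ℝ n phi := by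
  have h := contDiff_tsum_of_eventually (𝕜 := ℝ) (f := fun (k : ℕ) (z : ℂ) => ee k * uu k z)
    (v := fun _ k => ((1:ℝ) / 2) ^ k) (N := (n : ℕ∞)) (fun k => ?_) (fun _ _ => summable_geo) ?_
  · exact h
  · exact contDiff_const.mul (uu_contDiff k n)
  · intro i _
    rw [Nat.cofinite_eq_atTop]
    filter_upwards [eventually_ge_atTop i] with k hk z
    have h1 : iteratedFDeriv ℝ i (fun z => ee k * uu k z) z = ee k • iteratedFDeriv ℝ i (uu k) z := by
      have : (fun z => ee k * uu k z) = ee k • uu k := by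
        ext z; simp
      rw [this, iteratedFDeriv_const_smul_apply ((uu_contDiff k i).contDiffAt)]
    rw [h1, norm_smul, Real.norm_of_nonneg (ee_pos k).le]
    exact (mul_le_mul_of_nonneg_left (MM_spec k i hk z) (ee_pos k).le).trans (eeMM_le k)

/-- splitting of the potential at the `k`-th block -/
theorem phi_split (k : ℕ) (z : ℂ) :
    phi z = ∑ j ∈ Finset.range k, ee j * uu j z + ee k * uu k z + ∑' j, ee (j + (k + 1)) * uu (j + (k + 1)) z := by
  rw [phi, ← (term_summable z).sum_add_tsum_nat_add (k + 1), Finset.sum_range_succ]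

theorem tail_nonneg (k : ℕ) (z : ℂ) : 0 ≤ ∑' j, ee (j + (k + 1)) * uu (j + (k + 1)) z :=
  tsum_nonneg (fun _ => term_nonneg _ z)

theorem tail_le (k : ℕ) (z : ℂ) : ∑' j, ee (j + (k + 1)) * uu (j + (k + 1)) z ≤ ee k := by
  have hs : Summable (fun j : ℕ => ee k / 2 * (1 / 2) ^ j) := summable_geo.mul_left _
  have h1 : ∑' j, ee (j + (k + 1)) * uu (j + (k + 1)) z ≤ ∑' j : ℕ, ee k / 2 * (1 / 2) ^ j := by
    apply Summable.tsum_le_tsum _ ((summable_nat_add_iff (k + 1)).mpr (term_summable z)) hs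
    intro j
    have h2 : ee (j + (k + 1)) * uu (j + (k + 1)) z ≤ ee (j + (k + 1)) * MM (j + (k + 1)) :=
      mul_le_mul_of_nonneg_left (uu_le _ z) (ee_pos _).le
    have h3 : ee (j + (k + 1)) * MM (j + (k + 1)) = ee (k + j) / 2 := by
      have := ee_succ (k + j)
      rw [← this]
      congr 2 <;> ring_nf
    have h4 := ee_add_le k j
    linarith
  have h5 : ∑' j : ℕ, ee k / 2 * (1 / 2 : ℝ) ^ j = ee k := by
    rw [tsum_mul_left, tsum_geometric_of_lt_one (by norm_num) (by norm_num)]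
    ring
  linarith

theorem bump_one {z : ℂ} (hz : ‖z‖ ≤ Real.exp 3 + 1) : bump z = 1 :=
  bump.one_of_mem_closedBall (mem_closedBall_zero_iff.mpr hz)

theorem uu_eq {z : ℂ} (hz : ‖z‖ ≤ Real.exp 3 + 1) (k : ℕ) :
    uu k z = psi (RR k) ((z - (ar k : ℝ)) / (dd k : ℝ)) := by
  rw [uu, bump_one hz, one_mul]

theorem uu_le_psi (z : ℂ) (k : ℕ) :
    uu k z ≤ psi (RR k) ((z - (ar k : ℝ)) / (dd k : ℝ)) := by
  rw [uu]
  exact mul_le_of_le_one_left (psi_nonneg (RR_ge k) _) bump.le_one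

/-- the partial sums (without cutoff) are approximable -/
theorem partial_appr (N : ℕ) :
    Appr (fun z => ∑ j ∈ Finset.range N, ee j * psi (RR j) ((z - (ar j : ℝ)) / (dd j : ℝ))) :=
  Appr.sum _ _ (fun j _ => psi_appr (RR_ge j) (dd_pos j) (ee_pos j).le _)

end Pool.Agent.H788R3.Sq
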